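import Mathlib

/-!
# MP_5ee2d0_ag: projective manifolds, divisors
-/

namespace Pool.Agent.H76.F4

open scoped BigOperators

/-! ## Numerical classes -/

/-- `N^1(Y)` with real coefficients, `r` the Picard number. -/
abbrev Vec (r : ℕ) := Fin r → ℝ

/-- The numerical classes of the prime divisors of a projective manifold. -/
structure Num (r : ℕ) (Pr : Type) where
  /-- an ample class -/
  A : Vec r
  /-- the class of a prime divisor -/
  cl : Pr → Vec r

namespace Num

variable {r : ℕ} {Pr : Type} (Y : Num r Pr)

/-- `x` is the class of an effective divisor with real coefficients -/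
def Eff (x : Vec r) : Prop :=
  ∃ (k : ℕ) (F : Fin k → Pr) (u : Fin k → ℝ), (∀ i, 0 ≤ u i) ∧ x = ∑ i, u i • Y.cl (F i)

/-- `x` is the class of an effective divisor with real coefficients which does not contain `F` -/
def Free (F : Pr) (x : Vec r) : Prop :=
  ∃ (k : ℕ) (G : Fin k → Pr) (u : Fin k → ℝ), (∀ i, 0 ≤ u i) ∧ (∀ i, G i ≠ F) ∧
    x = ∑ i, u i • Y.cl (G i)

/-- pseudoeffective classes -/
def Psef (x : Vec r) : Prop := ∀ t : ℝ, 0 < t → Y.Eff (x + t • Y.A)

/-- movable classes: if `t > 0` then no prime divisor is contained in all the effective divisors with the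
class `x + t A` -/
def Mov (x : Vec r) : Prop := ∀ t : ℝ, 0 < t → ∀ F, Y.Free F (x + t • Y.A)

end Num

/-! ## The manifold -/

/-- A projective manifold `X` with Picard number `r`. -/
structure Var (r : ℕ) where
  /-- the Picard group -/
  P : Type
  /-- prime divisors -/
  Pr : Type
  /-- points -/
  Pt : Type
  /-- irreducible curves -/
  Cv : Type
  [grp : AddCommGroup P]
  /-- the dimension of `X` -/
  n : ℕ
  /-- the line bundle of a prime divisor -/
  O : Pr → P
  /-- the degree of a line bundle on a curve -/
  deg : Cv → P → ℤ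
  /-- the point lies on the prime divisor -/
  On : Pt → Pr → Prop
  /-- the dimension of `H^q(X, x)` -/
  h : ℕ → P → ℕ
  /-- the class of a line bundle in `N^1(X) = ℤ^r` -/
  c : P → Fin r → ℤ
  /-- an ample line bundle -/
  A : P

attribute [instance] Var.grp

namespace Var

variable {r : ℕ} (X : Var r)

/-- the class of a line bundle in `N^1(X)` with real coefficients -/
def rl (x : X.P) : Vec r := fun i => (X.c x i : ℝ)

/-- the numerical classes with real coefficients -/
def num : Num r X.Pr := ⟨X.rl X.A, fun F => X.rl (X.O F)⟩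

/-- the line bundle `O_X(D)` of an effective divisor -/
def line (D : X.Pr →₀ ℕ) : X.P := D.sum fun F k => k • X.O F

/-- nef line bundles -/
def Nef (x : X.P) : Prop := ∀ C, 0 ≤ X.deg C x

/-- semiample line bundles: for some `m ≥ 1` the linear system `|m x|` has no base points -/
def Semiample (x : X.P) : Prop :=
  ∃ m : ℕ, 0 < m ∧ ∀ p, ∃ D, X.line D = m • x ∧ ∀ F ∈ D.support, ¬ X.On p F

/-- the Euler characteristic of a line bundle -/
def chi (x : X.P) : ℤ := ∑ q ∈ Finset.range (X.n + 1), (-1) ^ q * (X.h q x : ℤ)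

end Var

/-- The Picard group; `H^1(X, O_X) = 0`. -/
structure Var.Pic {r : ℕ} (X : Var r) : Prop where
  add_c : ∀ x y, X.c (x + y) = X.c x + X.c y
  /-- `H^1(X, O_X) = 0`: numerically trivial line bundles are torsion -/
  tors : ∀ x, X.c x = 0 → ∃ k : ℕ, 0 < k ∧ k • x = 0
  /-- a nonzero section has a divisor -/
  sect : ∀ x, X.h 0 x ≠ 0 ↔ ∃ D, X.line D = x

end Pool.Agent.H76.F4
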