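import Pool.Agent.H15.XF.BCl
import Pool.Agent.H76.F4.Var

/-!
# MP_5ee2d0_ag: differential forms with values in the multiples of a nef line bundle
-/

namespace Pool.Agent.H76.F4

open Pool.Agent.H15.XF

/-- Differential forms on `X` with values in multiples of the nef line bundle `L`. `K` is the function field
of `X`; after the choice of a rational section of `L` the sections of `Ω^p ⊗ L^m` are vectors of
`Ω^p ⊗ K = K^N`, `N = n.choose p`. -/
structure Var.Forms {r : ℕ} (X : Var r) {B : BCl r} {L : X.P} (C : Cur B (X.rl L)) where
  K : Type
  [fld : Field K]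
  /-- the vector is the value at the generic point of a section of `Ω^p ⊗ L^m` -/
  sec : (p m : ℕ) → (Fin (X.n.choose p) → K) → Prop
  /-- the determinant of the quotient `Ω^p / F`, `F` the saturated subsheaf of `Ω^p` with generic fibre `V`;
  as `K_X ~ 0` the determinant of `F` is `-quo p V` -/
  quo : (p : ℕ) → Submodule K (Fin (X.n.choose p) → K) → X.P
  /-- Campana and Paun: `K_X` is pseudoeffective, so the determinant of a torsion free quotient of
  `Ω^p` is pseudoeffective -/
  cp : ∀ p V, X.num.Psef (X.rl (quo p V))
  /-- the exterior product of linearly independent maps `L^(-m_i) → F` is a nonzero map to the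
  determinant of `F` -/
  wedge : ∀ p (k : ℕ) (v : Fin k → Fin (X.n.choose p) → K) (m : Fin k → ℕ),
    LinearIndependent K v → (∀ i, sec p (m i) (v i)) →
    X.h 0 ((∑ i, m i) • L - quo p (Submodule.span K (Set.range v))) ≠ 0
  /-- Skoda: if the Lelong numbers of `T` along all the prime divisors on the models are zero then all the
  multiplier ideals of the multiples of the metric are trivial; Demailly, Peternell and Schneider: hard
  Lefschetz theorem, with `K_X ~ 0` -/
  dps : ∀ T, (∀ E, C.nu T E = 0) → ∀ q m : ℕ, q ≤ X.n → 0 < m → X.h q (m • L) ≠ 0 →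
    ∃ v, v ≠ 0 ∧ sec (X.n - q) m v

attribute [instance] Var.Forms.fld

end Pool.Agent.H76.F4
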