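import Pool.Agent.H76.F4.Non
import Pool.Agent.H76.F4.Forms

namespace Pool.Agent.H76.F4

open scoped BigOperators
open Pool.Agent.H15.XF

namespace Var

variable {r : ℕ} {X : Var r} {B : BCl r}

/-- **Step 5.** Infinitely many multiples `M L` are the sum of an effective divisor and of one fixed
pseudoeffective class. -/
theorem Forms.split {f : Vec r → Vec r → ℝ} (h : X.Divisors f) {L : X.P} {C : Cur B (X.rl L)} (F : X.Forms C) (p : ℕ)
    (hs : ∀ N : ℕ, ∃ (m : ℕ) (v : Fin (X.n.choose p) → F.K), N < m ∧ v ≠ 0 ∧ F.sec p m v) :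
    ∃ Q, X.num.Psef Q ∧ ∀ N : ℕ, ∃ (M : ℕ) (x : Vec r), N < M ∧ X.num.Eff x ∧
      (M : ℝ) • X.rl L = x + Q := by
  classical
  let S : Set (Fin (X.n.choose p) → F.K) := {v | ∃ m : ℕ, v ≠ 0 ∧ F.sec p m v}
  refine ⟨X.rl (F.quo p (Submodule.span F.K S)), F.cp p _, fun N => ?_⟩
  obtain ⟨m, v, hm, hv0, hv⟩ := hs N
  have hli : LinearIndepOn F.K id ({v} : Set (Fin (X.n.choose p) → F.K)) := by
    rw [linearIndepOn_singleton_iff]
    exact hv0
  have hsub : ({v} : Set (Fin (X.n.choose p) → F.K)) ⊆ S := by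
    rintro _ rfl
    exact ⟨m, hv0, hv⟩
  let b := hli.extend hsub
  have hb1 : ({v} : Set _) ⊆ b := hli.subset_extend hsub
  have hb2 : b ⊆ S := hli.extend_subset hsub
  have hb3 : Submodule.span F.K b = Submodule.span F.K S := by
    refine le_antisymm (Submodule.span_mono hb2) (Submodule.span_le.2 ?_)
    exact hli.subset_span_extend hsub
  have hb4 : LinearIndepOn F.K id b := hli.linearIndepOn_extend hsub
  have hfin : b.Finite := hb4.linearIndependent.set_finite_of_isNoetherian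
  have : Finite b := hfin.to_subtype
  have := Fintype.ofFinite b
  let e := (Fintype.equivFin b).symm
  -- the indices
  have hm' : ∀ w : b, ∃ m' : ℕ, F.sec p m' w ∧ (w.1 = v → m' = m) := by
    rintro ⟨w, hw⟩
    by_cases hwv : w = v
    · subst hwv
      exact ⟨m, hv, fun _ => rfl⟩
    · obtain ⟨m', _, h2⟩ := hb2 hw
      exact ⟨m', h2, fun h3 => absurd h3 hwv⟩
  choose mm hmm1 hmm2 using hm'
  have hw := F.wedge p (Fintype.card b) (fun i => (e i : Fin (X.n.choose p) → F.K))
    (fun i => mm (e i)) (by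
      have h1 : LinearIndependent F.K ((fun x : b => (x : Fin (X.n.choose p) → F.K)) ∘ e) :=
        (linearIndependent_equiv e).2 hb4.linearIndependent
      exact h1) (fun i => hmm1 (e i))
  have hr : Set.range (fun i => (e i : Fin (X.n.choose p) → F.K)) = b := by
    ext w
    constructor
    · rintro ⟨i, rfl⟩
      exact (e i).2
    · intro hw
      exact ⟨e.symm ⟨w, hw⟩, by simp⟩
  rw [hr, hb3] at hw
  obtain ⟨D, hD⟩ := (h.sect _).1 hw
  refine ⟨∑ i, mm (e i), X.rl (X.line D), ?_, h.eff_line D, ?_⟩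
  · have h1 : mm ⟨v, hb1 rfl⟩ = m := hmm2 _ rfl
    have h2 := Finset.single_le_sum (f := fun i => mm (e i)) (fun i _ => Nat.zero_le _)
      (Finset.mem_univ (e.symm ⟨v, hb1 rfl⟩))
    simp only [Equiv.apply_symm_apply] at h2
    omega
  · rw [hD, ← h.rl_nsmul, ← h.rl_add, sub_add_cancel]

end Var

end Pool.Agent.H76.F4
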