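import Pool.Agent.H76.F4.Num
import Pool.Agent.H31.ND.Rat

namespace Pool.Agent.H76.F4

open scoped BigOperators
open Pool.Agent.H31.ND

namespace Var

variable {r : ℕ} {X : Var r}

theorem line_zero : X.line 0 = 0 := Finsupp.sum_zero_index

theorem line_add (D D' : X.Pr →₀ ℕ) : X.line (D + D') = X.line D + X.line D' :=
  Finsupp.sum_add_index' (fun _ => zero_nsmul _) fun _ _ _ => add_nsmul _ _ _

theorem line_single (F : X.Pr) (k : ℕ) : X.line (Finsupp.single F k) = k • X.O F :=
  Finsupp.sum_single_index (zero_nsmul _)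

/-- `line` as a homomorphism -/
def lineHom (X : Var r) : (X.Pr →₀ ℕ) →+ X.P where
  toFun := X.line
  map_zero' := line_zero
  map_add' := line_add

theorem line_sum {ι : Type} (s : Finset ι) (D : ι → X.Pr →₀ ℕ) :
    X.line (∑ i ∈ s, D i) = ∑ i ∈ s, X.line (D i) := map_sum X.lineHom D s

theorem line_nsmul (k : ℕ) (D : X.Pr →₀ ℕ) : X.line (k • D) = k • X.line D :=
  map_nsmul X.lineHom k D

namespace Divisors

variable {f : Vec r → Vec r → ℝ} (h : X.Divisors f)

include h

theorem c_zero : X.c 0 = 0 := by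
  have := h.add_c 0 0
  rw [add_zero] at this
  exact left_eq_add.1 this

theorem c_nsmul (k : ℕ) (x : X.P) : X.c (k • x) = k • X.c x :=
  map_nsmul (⟨⟨X.c, h.c_zero⟩, h.add_c⟩ : X.P →+ (Fin r → ℤ)) k x

theorem c_sub (x y : X.P) : X.c (x - y) = X.c x - X.c y :=
  map_sub (⟨⟨X.c, h.c_zero⟩, h.add_c⟩ : X.P →+ (Fin r → ℤ)) x y

theorem c_sum {ι : Type} (s : Finset ι) (x : ι → X.P) :
    X.c (∑ i ∈ s, x i) = ∑ i ∈ s, X.c (x i) :=
  map_sum (⟨⟨X.c, h.c_zero⟩, h.add_c⟩ : X.P →+ (Fin r → ℤ)) x s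

omit h in
theorem rl_zero_iff (x : X.P) : X.rl x = 0 ↔ X.c x = 0 := by
  constructor
  · intro h1
    funext i
    have := congrFun h1 i
    simpa [rl] using this
  · intro h1
    funext i
    simp [rl, h1]

theorem rl_add (x y : X.P) : X.rl (x + y) = X.rl x + X.rl y := by
  funext i
  simp [rl, h.add_c]

theorem rl_nsmul (k : ℕ) (x : X.P) : X.rl (k • x) = (k : ℝ) • X.rl x := by
  funext i
  simp [rl, h.c_nsmul]

theorem rl_zero : X.rl 0 = 0 := (rl_zero_iff 0).2 h.c_zero

theorem cl_eq (F : X.Pr) : X.num.cl F = X.rl (X.O F) := rfl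

theorem pos (F : X.Pr) : 0 < f X.num.A (X.num.cl F) := h.form.pos F

/-- the class of an effective divisor is effective -/
theorem eff_line (D : X.Pr →₀ ℕ) : X.num.Eff (X.rl (X.line D)) := by
  classical
  induction D using Finsupp.induction with
  | zero => rw [line_zero, h.rl_zero]; exact Num.Eff.zero
  | single_add F k D _ _ ih =>
    rw [line_add, h.rl_add, line_single, h.rl_nsmul, ← h.cl_eq]
    exact ((Num.Eff.cl F).smul (Nat.cast_nonneg k)).add ih

/-- a line bundle with effective class has a multiple with sections -/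
theorem effective (x : X.P) (hx : X.num.Eff (X.rl x)) : ∃ m : ℕ, 0 < m ∧ X.h 0 (m • x) ≠ 0 := by
  classical
  obtain ⟨k, F, u, hu, e⟩ := hx
  obtain ⟨q, p, hq, hp⟩ := exists_nat_comb (X.c x) (fun i => X.c (X.O (F i))) u hu (by
    intro j
    have h1 := congrFun e j
    simp only [rl, Finset.sum_apply, Pi.smul_apply, smul_eq_mul] at h1
    rw [h1]
    refine Finset.sum_congr rfl fun i _ => ?_
    rfl)
  have h1 : X.c (q • x - ∑ i, p i • X.O (F i)) = 0 := by
    rw [h.c_sub, h.c_nsmul, h.c_sum, sub_eq_zero]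
    funext j
    have := hp j
    simp only [Pi.smul_apply, nsmul_eq_mul, Finset.sum_apply, h.c_nsmul]
    exact this
  obtain ⟨t, ht, h2⟩ := h.tors _ h1
  refine ⟨t * q, Nat.mul_pos ht hq, (h.sect _).2 ⟨∑ i, Finsupp.single (F i) (t * p i), ?_⟩⟩
  rw [line_sum]
  rw [smul_sub, sub_eq_zero] at h2
  rw [mul_smul, h2, Finset.smul_sum]
  exact Finset.sum_congr rfl fun i _ => by rw [line_single, mul_smul]

end Divisors

end Var

end Pool.Agent.H76.F4
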