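import Pool.Agent.H76.F4.Var

/-!
# Effective nef divisors on fourfolds with trivial canonical class (MP_5ee2d0_ag)

`X` is a smooth projective fourfold with `K_X ~ 0` and `H^1(X, O_X) = 0`, `L` is a nef divisor, and a
positive multiple of `L` is linearly equivalent to an effective divisor. Then `L` is semiample.

## The model

Suppose `L^3 = 0` and `m L ~ E`, `E` effective and not zero. Let `f : Y → X` be a log resolution of
`(X, E)`, an isomorphism outside of `E`, and `S` the reduced sum of the components of `f^*E`. The divisor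
`K_Y + S`, where `K_Y` is given by the 4-form of `X` without zeros, is effective with support `S`. The
minimal model program for `K_Y + S` exists (Birkar, Cascini, Hacon and McKernan 2010) and stops (special
termination in dimension four: Fujino 2007, in Corti's book on flips; Kawamata 1992 and Shokurov 1996 for
threefolds), because all its steps meet `S`. Let `(Y', S')` be its end; it is `ℚ`-factorial and dlt. The divisor `K_(Y') + S' = ∑ (k_j + 1) S_j` is nef, its support is `S'`, its third
power is numerically trivial, so its restriction to the sdlt threefold `S'` has numerical dimension at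
most one. The restriction is semiample (Fujino 2000, abundance theorem for semi log canonical threefolds;
Miyaoka, Kawamata, and Keel, Matsuki and McKernan 1994 for the components). So there is a Cartier divisor
`G' = ∑ m_j S_j`, `c G' = K_(Y') + S'` with a rational number `c > 0`, `m_j ≥ 1`, such that `O_(S')(G')` is
the pull back of a very ample line bundle by `φ : S' → Z`, where `φ_* O = O_Z` and `Z` is a projective
seminormal scheme of dimension at most one.

Let `b` be a common multiple of the `m_j` with `c b` integral, and `l = c b - 1`. The root stack of order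
`b` of `(Y', G')` along `S'` is locally the quotient of `V` by the group of the `b`-th roots of unity, `V` the
normalised covering `z^b = s`, `s` a local equation of `G'`. Let `D` be the divisor of `z`, and
`D_k = k D`. `D` is reduced and Cartier, `K_V = l D`, the pair `(V, D)` is log canonical and `V` is
canonical, so Gorenstein. So `D` is semi log canonical, and it has Du Bois singularities (Kollár and
Kovács 2010); the dualising sheaf of `D_k` is the restriction of `O_V((l + k) D)`. The group `H^q(D_k, O(m D))` is the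
part of weight zero, it is `H^q` of the sheaf `O(⌊(m / b) G'⌋) / O(⌊((m - k) / b) G'⌋)` on `Y'`. In particular
`O(b D) = O(G')`.
-/

namespace Pool.Agent.H76.F4

/-! ## Linear algebra -/

/-- linear maps -/
def Lin {A B : Type} [AddCommGroup A] [Module ℂ A] [AddCommGroup B] [Module ℂ B] (f : A → B) : Prop :=
  (∀ x y, f (x + y) = f x + f y) ∧ ∀ (t : ℂ) x, f (t • x) = t • f x

/-- bilinear maps -/
def BiLin {A B C : Type} [AddCommGroup A] [Module ℂ A] [AddCommGroup B] [Module ℂ B] [AddCommGroup C]
    [Module ℂ C] (f : A → B → C) : Prop := (∀ x, Lin (f x)) ∧ ∀ y, Lin fun x => f x y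

/-- isomorphisms -/
def Iso {A B : Type} [AddCommGroup A] [Module ℂ A] [AddCommGroup B] [Module ℂ B] (f : A → B) : Prop :=
  Lin f ∧ Function.Bijective f

/-- exact sequences -/
def Ex {A B C : Type} [AddCommGroup C] (f : A → B) (g : B → C) : Prop := ∀ y, g y = 0 ↔ ∃ u, f u = y

/-- the subgroup generated by the products of the elements of `S` and of `T` -/
def Prods {A B C : Type} [AddCommGroup C] (f : A → B → C) (S : Set A) (T : Set B) : Set C :=
  AddSubgroup.closure {z | ∃ x ∈ S, ∃ y ∈ T, f x y = z}

/-- `x - y` is in the subset -/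
def Cong {A : Type} [AddCommGroup A] (F : Set A) (x y : A) : Prop := x - y ∈ F

/-- only zero is in all the subsets -/
def Sep {A : Type} [AddCommGroup A] (F : ℕ → Set A) : Prop := ∀ x, (∀ N, x ∈ F N) → x = 0

/-- the map `a` is the sum of the maps `b` and `c` -/
def Plus {A B C : Type} [AddCommGroup C] (a b c : A → B → C) : Prop := ∀ x y, a x y = b x y + c x y

/-- linear maps from `ℂ^p` to `ℂ^q` -/
def CLin {p q : ℕ} (f : (Fin p → ℂ) → Fin q → ℂ) : Prop := Lin f

/-- exact sequences -/
def CEx {p q r : ℕ} (f : (Fin p → ℂ) → Fin q → ℂ) (g : (Fin q → ℂ) → Fin r → ℂ) : Prop := Ex f g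

/-- affine maps -/
def CAff {p q : ℕ} (f : (Fin p → ℂ) → Fin q → ℂ) : Prop :=
  ∀ (t : ℂ) x, f (t • x) = f 0 + t • (f x - f 0)

/-- a perfect pairing of `ℂ^p` and `ℂ^q` -/
def Perfect {p q : ℕ} (b : (Fin p → ℂ) → (Fin q → ℂ) → ℂ) : Prop :=
  BiLin b ∧ (∀ x, (∀ y, b x y = 0) → x = 0) ∧ ∀ y, (∀ x, b x y = 0) → y = 0

/-- `g` is the transpose of `f` -/
def Adj {p q p' q' : ℕ} (f : (Fin p → ℂ) → Fin q → ℂ) (g : (Fin q' → ℂ) → Fin p' → ℂ) : Prop :=
  ∃ (b : (Fin p → ℂ) → (Fin p' → ℂ) → ℂ) (b' : (Fin q → ℂ) → (Fin q' → ℂ) → ℂ),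
    Perfect b ∧ Perfect b' ∧ ∀ x y, b' (f x) y = b x (g y)

/-! ## Cohomology of the infinitesimal neighbourhoods -/

/-- Cohomology of `D_k`, a projective scheme (stack) of dimension three; `D_0` is empty. The space
`H^q(D_k, O(m D))` is `ℂ^(h q k m)`. The classes `x` in `H^1(D, O(-k D))`, `k ≥ 1`, are the isomorphism
classes of line bundles on `D_(k+1)` with a trivialisation on `D_k`. -/
structure Coh where
  h : ℕ → ℕ → ℤ → ℕ
  /-- the restriction from `D_(k+1)` to `D_k` -/
  res : ∀ q k m, (Fin (h q (k + 1) m) → ℂ) → Fin (h q k m) → ℂ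
  /-- The space `H^q(D_(k+1), O(m D) ⊗ x)` is `ℂ^(hT q k m x)`. -/
  hT : ∀ (_ k : ℕ) (_ : ℤ), (Fin (h 1 1 (-k)) → ℂ) → ℕ
  /-- the restriction to `D_k` -/
  rT : ∀ q k m x, (Fin (hT q k m x) → ℂ) → Fin (h q k m) → ℂ
  /-- the connecting map of `0 → O_D((m - k) D) → O_(D_(k+1))(m D) ⊗ x → O_(D_k)(m D) → 0` -/
  d : ∀ q (k : ℕ) m, (Fin (h 1 1 (-k)) → ℂ) → (Fin (h q k m) → ℂ) → Fin (h (q + 1) 1 (m - k)) → ℂ
  /-- the connecting map of `0 → O_(D_k)((m - 1) D) → O_(D_(k+1))(m D) ⊗ x → O_D(m D) → 0` -/
  dl : ∀ q (k : ℕ) m, (Fin (h 1 1 (-k)) → ℂ) → (Fin (h q 1 m) → ℂ) → Fin (h (q + 1) k (m - 1)) → ℂ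

namespace Coh

variable (C : Coh)

/-- the restriction from `D_(n+1)` to `D` -/
def one (q : ℕ) (m : ℤ) : ∀ n, (Fin (C.h q (n + 1) m) → ℂ) → Fin (C.h q 1 m) → ℂ
  | 0 => id
  | n + 1 => fun t => one q m n (C.res q (n + 1) m t)

/-- the restriction from `H^q(D_(n+2), O(m D) ⊗ x)` to `D` -/
def rD (q n : ℕ) (m : ℤ) (x : Fin (C.h 1 1 (-(n + 1 : ℕ))) → ℂ)
    (t : Fin (C.hT q (n + 1) m x) → ℂ) : Fin (C.h q 1 m) → ℂ :=
  C.one q m n (C.rT q (n + 1) m x t)

/-- the connecting map of `0 → O_D((m - k) D) → O_(D_(k+1))(m D) → O_(D_k)(m D) → 0` -/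
def d₀ (q k : ℕ) (m : ℤ) : (Fin (C.h q k m) → ℂ) → Fin (C.h (q + 1) 1 (m - k)) → ℂ := C.d q k m 0

/-- the class is the restriction of a class on `D_(k+1)` -/
def Ext (q k : ℕ) (m : ℤ) (t : Fin (C.h q k m) → ℂ) : Prop := ∃ u, C.res q k m u = t

/-- Exact sequences and Serre duality, `k = n + 1 ≥ 1`. -/
structure Exact (l : ℕ) : Prop where
  lin : ∀ q k m, CLin (C.res q k m)
  /-- the connecting map is the sum of the connecting map `d₀` and the product with `x` -/
  aff : ∀ q k m t, CAff fun x => C.d q k m x t
  exact : ∀ q n m, CEx (C.res q (n + 1) m) (C.d₀ q (n + 1) m)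
  exact_rT : ∀ q n m x, CEx (C.rT q (n + 1) m x) (C.d q (n + 1) m x)
  exact_rD : ∀ q n m x, CEx (C.rD q n m x) (C.dl q (n + 1) m x)
  /-- Serre duality. The dualising sheaf of `D_k` is `O((l + k) D)`, and the two exact sequences with the
  sheaves `O_(D_(k+1))(m D) ⊗ x` and `O_(D_(k+1))(m' D) ⊗ (-x)` are dual to each other if
  `m + m' = l + k + 1`. -/
  dual : ∀ (q q' n : ℕ) (m m' : ℤ) x, q + q' = 2 → m + m' = l + (n + 1 : ℕ) + 1 →
    Adj (C.d q (n + 1) m x) (C.dl q' (n + 1) m' (-x))
  /-- there is no cohomology in degrees greater than three -/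
  dim : ∀ q m, 3 < q → C.h q 1 m = 0

/-- all classes of degree at least `l + k + 1` on `D_k` extend to `D_(k+1)` -/
def E (l k : ℕ) : Prop := ∀ q (m : ℤ), (l + k + 1 : ℤ) ≤ m → ∀ t, C.Ext q k m t

/-- the class `(m / M) x` -/
noncomputable def pw (n M : ℕ) (x : Fin (C.h 1 1 (-(n + 1 : ℕ))) → ℂ) (m : ℤ) : Fin (C.h 1 1 (-(n + 1 : ℕ))) → ℂ :=
  ((m : ℂ) / M) • x

/-- Let `k = n + 1`, and let `u` be a section of `O(M D) ⊗ x` on `D_(k+1)`, `M > 0` a multiple of `b`, whose
restriction to `D` is a general section of `O(M D)`, the pull back of a very ample line bundle on `Z`.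
Consider the covering `y^M = u` of `D_(k+1)`. Its reduction is the covering `y^M = u|D` of `D`, it is semi
log canonical (on the root stack), so its coarse space has Du Bois singularities (Kollár and Kovács 2010).
The direct images of the structure sheaves are the sums of the sheaves `O(m D) ⊗ (m / M) x` and `O_D(m D)`,
`-M < m ≤ 0`. -/
structure Cover (n M : ℕ) (x : Fin (C.h 1 1 (-(n + 1 : ℕ))) → ℂ) where
  /-- the cohomology of the covering with coefficients in `ℂ` -/
  A : ℕ → Type
  /-- As `ℂ` is a subsheaf of the structure sheaf of the covering of `D_(k+1)`, there are maps from its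
  cohomology to the cohomology of the summands. -/
  f : ∀ q (m : ℤ), A q → Fin (C.hT q (n + 1) m (C.pw n M x m)) → ℂ
  /-- `H^q(ℂ) → H^q(O)` is onto for a projective scheme with Du Bois singularities (Du Bois 1981); here
  for the covering of `D`. -/
  dubois : ∀ q (w : ∀ m : ℤ, Fin (C.h q 1 m) → ℂ), ∃ a, ∀ m : ℤ, -(M : ℤ) < m → m ≤ 0 →
    C.rD q n m _ (f q m a) = w m

end Coh

/-! ## The direct images on `Z` -/

/-- The direct images of the sheaves `O_(D_k)(m D)`. `Z` has dimension zero or one. -/
structure Img where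
  /-- the points of `Z` -/
  Z : Type
  /-- The general points: they are on the curves of `Z`, which are smooth there, all direct images of
  the sheaves `O_D(m D)` are locally free, and `D → Z` is topologically locally trivial. An element of
  `G` is a general point together with a coordinate `t` with the centre in this point, and a
  trivialisation of the line bundle `O(b D)` near the fibre on the neighbourhoods `D_k` such that the
  direct images are mapped onto each other up to `D_k` (it exists: lift one on `D`). If `Z` is a point then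
  `G` is empty. -/
  G : Type
  pt : G → Z
  /-- If `z` is a general point: `H^q` of the formal completion of `D_k` along the fibre over `z`, with
  coefficients in `O(m D)` (by the theorem on formal functions the completion of the direct image). For all other points `z` let `Δ_z` be a small Stein neighbourhood of `z`: `H^q`
  of the part of `D_k` over `Δ_z`, with coefficients in `O(m D)`. -/
  R : (q k : ℕ) → (m : ℤ) → Z → Type
  [grp : ∀ q k m z, AddCommGroup (R q k m z)]
  [mod : ∀ q k m z, Module ℂ (R q k m z)]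
  /-- the restriction from `D_(k+1)` to `D_k` -/
  res : ∀ q k m z, R q (k + 1) m z → R q k m z
  /-- the inclusion of `O_(D_k)((m - 1) D)` in `O_(D_(k+1))(m D)`: the product with the equation of `D` -/
  mz : ∀ q k m z, R q k (m - 1) z → R q (k + 1) m z
  /-- the product with a function on `D_k`, and the cup product with a class with values in `O_D(-k D)` -/
  mul : ∀ q k m z, R 0 k 0 z → R q k m z → R q k m z
  cup : ∀ q (k : ℕ) m z, R q k m z → R 1 1 (0 - k) z → R (q + 1) 1 (m - k) z
  /-- the connecting map of `0 → O_D((m - k) D) → O_(D_(k+1))(m D) → O_(D_k)(m D) → 0` -/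
  d : ∀ q (k : ℕ) m z, R q k m z → R (q + 1) 1 (m - k) z
  /-- the functions on `D` near the fibre over `z` which are zero on the fibre -/
  mx : ∀ z, Set (R 0 1 0 z)

attribute [instance] Img.grp Img.mod

namespace Img

variable (I : Img)

/-- the restriction from `D_(n+1)` to `D` -/
def one (q : ℕ) (m : ℤ) (z : I.Z) : ∀ n, I.R q (n + 1) m z → I.R q 1 m z
  | 0 => id
  | n + 1 => fun y => one q m z n (I.res q (n + 1) m z y)

/-- The classes on `D_(n+1)` in the product with the `N`-th power of the ideal of the functions whose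
restrictions to `D` are zero on the fibre over `z`. -/
def Fil (q n : ℕ) (m : ℤ) (z : I.Z) (N : ℕ) : Set (I.R q (n + 1) m z) :=
  (Prods (I.mul q (n + 1) m z) {f | I.one 0 0 z n f ∈ I.mx z})^[N] Set.univ

/-- the class is the restriction of a class on `D_(k+1)` -/
def Ext (q k : ℕ) (m : ℤ) (z : I.Z) (y : I.R q k m z) : Prop := ∃ u, I.res q k m z u = y

/-- `D_0` is empty. The cohomology sequences of `0 → O_(D_k)((m - 1) D) → O_(D_(k+1))(m D) → O_D(m D) → 0` and
of `0 → O_D((m - k) D) → O_(D_(k+1))(m D) → O_(D_k)(m D) → 0` are exact. -/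
structure Exact : Prop where
  lin_res : ∀ q k m z, Lin (I.res q k m z)
  lin_d : ∀ q k m z, Lin (I.d q k m z)
  lin_cup : ∀ q k m z, BiLin (I.cup q k m z)
  zero : ∀ q m z, Subsingleton (I.R q 0 m z)
  ker : ∀ q n m z, Ex (I.mz q n m z) (I.one q m z n)
  comm : ∀ q n m z y, I.res q (n + 1) m z (I.mz q (n + 1) m z y) = I.mz q n m z (I.res q n (m - 1) z y)
  exact : ∀ q k m z, Ex (I.res q k m z) (I.d q k m z)
  res_mul : ∀ q n m z x y, I.res q n m z (I.mul q (n + 1) m z x y) =
    I.mul q n m z (I.res 0 n 0 z x) (I.res q n m z y)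
  /-- the product rule -/
  d_mul : ∀ q n m z, Plus (fun f y => I.d q (n + 1) m z (I.mul q (n + 1) m z f y))
    (fun f y => I.mul (q + 1) 1 _ z (I.one 0 0 z n f) (I.d q (n + 1) m z y))
    fun f y => I.cup q (n + 1) m z y (I.d 0 (n + 1) 0 z f)
  cup_mul : ∀ q n m z f y c, I.cup q (n + 1) m z (I.mul q (n + 1) m z f y) c =
    I.mul (q + 1) 1 _ z (I.one 0 0 z n f) (I.cup q (n + 1) m z y c)
  cup_fn : ∀ n z f c, I.cup 0 (n + 1) 0 z f c = I.mul 1 1 _ z (I.one 0 0 z n f) c
  /-- Krull's intersection theorem; `Z` is a curve or a point, all points of `Δ_z` except `z` are general,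
  and the direct images are locally free there -/
  krull : ∀ q m z, Sep (I.Fil q 0 m z)

/-- The direct images of the sheaves on `D_(k+1)` are mapped onto the direct images of the sheaves on
`D_k`. -/
def S (k : ℕ) : Prop := ∀ q m z y, I.Ext q k m z y

end Img

/-- Classes on `D_k` and their restrictions to the parts over the points of `Z`, `k = n + 1 ≥ 1`. -/
structure Germ (C : Coh) (I : Img) where
  /-- the restriction to the part near the fibre over `z` -/
  loc : ∀ q k m z, (Fin (C.h q k m) → ℂ) → I.R q k m z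
  loc_d : ∀ q (k : ℕ) m z t, loc (q + 1) 1 (m - k) z (C.d₀ q k m t) = I.d q k m z (loc q k m z t)
  /-- the class `t / s` near the fibre over `z`, `t` in `H^q(D_k, O((m + M) D))` and `s` a section of `O(M D)`;
  zero if `s` has zeros there -/
  fr : ∀ q k (m M : ℤ) z, (Fin (C.h q k (m + M)) → ℂ) → (Fin (C.h 0 k M) → ℂ) → I.R q k m z
  /-- if `s` and `t` extend to `D_(k+1)` then `t / s` extends near the fibre -/
  fr_ext : ∀ q n m M z t s, C.Ext q (n + 1) (m + M) t → C.Ext 0 (n + 1) M s →
    I.Ext q (n + 1) m z (fr q (n + 1) m M z t s)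
  /-- If the direct images on `D_(j+1)` are mapped onto those on `D_j` for all `j < k` then the direct images
  on `D_k` are coherent sheaves on a projective scheme with the underlying space `Z`, and `O(b D)` is the
  pull back of an ample line bundle of this scheme. Serre's theorems A and B (1955) and Leray's
  spectral sequence: for large multiples `M` of `b` there is a section `s` of `O(M D)` without zeros near
  the fibre over `z`, and `s y` is congruent to a class of `H^q(D_k, O((m + M) D))`. -/
  approx : ∀ n, (∀ j, j < n + 1 → I.S j) → ∀ q m z y N (m₁ : ℤ), ∃ M t s, m₁ ≤ M ∧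
    Cong (I.Fil q n m z N) y (fr q (n + 1) m M z t s)

/-! ## The first obstruction -/

/-- The functions on the formal neighbourhood of a point with the coordinate `t`. -/
abbrev Fun := PowerSeries ℂ

/-- the function `a + t` -/
noncomputable def co (a : ℂ) : Fun := PowerSeries.C a + PowerSeries.X

/-- the derivative of a vector with respect to `t` -/
noncomputable def der {r : ℕ} (v : Fin r → Fun) : Fin r → Fun := fun i => PowerSeries.derivative ℂ (v i)

/-- The obstruction to the extension of functions from `D_k` to `D_(k+1)`, `k = n + 1`, where the direct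
images of the sheaves on `D_(j+1)` are mapped onto those on `D_j` for all `j < k`.

Near the fibre over `z` the line bundle `O(b D)` is trivial on `D_k`; for a general point the
trivialisation is given, for a special point choose one over the whole of `Δ_z`. Then `O(D)` is the
product of the structure sheaf of `D_k` and of a local system of rank one whose `b`-th power is trivial
(a line bundle on the root stack, `O(b D) = O(G')`).
Let `ρ` be its power with the exponent `a = l + k + 1`. So `R 1 j a z`, `j ≤ k`, is also `H^1` of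
`ρ ⊗ O_(D_j)`, and `ρ ⊗ O_D(-k D)` is the dualising sheaf of `D`. The local system `R^1 φ_* ρ` on the general
points is an admissible variation of mixed Hodge structures of weights zero and one (Deligne 1974,
Steenbrink and Zucker 1985; `F^0 / F^1` is `R^1` of `ρ ⊗ O_D` as the fibres of `D` are Du Bois); another
trivialisation multiplies its image in `R 1 1 a z` by a function without zeros. -/
structure Symbol (I : Img) (n : ℕ) (a : ℤ) where
  /-- at a general point: the ranks of `R^1` of `O_D(-k D)` and of `ρ ⊗ O_D`, and the rank of the local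
  system `R^1 φ_* ρ`, whose vector bundle is `𝓥` -/
  rC : I.G → ℕ
  rB : I.G → ℕ
  rV : I.G → ℕ
  /-- the functions on `D`, as `φ_* O_D = O_Z`, and bases of the free modules `R^1` of `O_D(-k D)` and of
  `ρ ⊗ O_D` -/
  fn : ∀ g, I.R 0 1 0 (I.pt g) → Fun
  cc : ∀ g, I.R 1 1 (0 - (n + 1 : ℕ)) (I.pt g) → Fin (rC g) → Fun
  cb : ∀ g, I.R 1 1 a (I.pt g) → Fin (rB g) → Fun
  /-- the cup product with values in `R^2` of the dualising sheaf and the trace: the coefficient of `dt`
  of a 1-form -/
  pair : ∀ g, (Fin (rC g) → Fun) → (Fin (rB g) → Fun) → Fun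
  /-- the connecting map of the sequence `0 → ρ ⊗ O_D(-k D) → ρ ⊗ O_(D_(k+1)) → ρ ⊗ O_(D_k) → 0` and the
  trace -/
  dd : ∀ g, I.R 1 (n + 1) a (I.pt g) → Fun
  /-- the classes on `D_k` of the sections in a basis of flat sections -/
  fl : ∀ g, Fin (rV g) → I.R 1 (n + 1) a (I.pt g)
  /-- the part of weight zero -/
  W : ∀ g, Set (Fin (rV g) → Fun)
  /-- the points on the curves of `Z` which are not general, and the branches of the curves there -/
  Sp : Type
  sp : Sp → I.Z
  Br : Sp → Type
  /-- A general point near the special point `z` on the branch, such that `t + a_z` is a coordinate of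
  the branch with the centre `z` for a number `a_z`, and the trivialisation of `O(b D)` is the
  restriction of the one over `Δ_z`. -/
  near : ∀ z, Br z → I.G
  az : ∀ z, Br z → ℂ
  /-- the expansions at `near z β` of the functions which are holomorphic on the branch of `Δ_z` -/
  Reg : ∀ z, Br z → Set Fun
  /-- the expansions of the sections of Deligne's extension of `𝓥` to the branch of `Δ_z`, such that the
  eigenvalues of the residue are in `(0, 1]` (Deligne 1970) -/
  Lat : ∀ z β, Set (Fin (rV (near z β)) → Fun)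
  rho : ∀ z β j, I.R 1 j a (sp z) → I.R 1 j a (I.pt (near z β))
  /-- the sections of the dualising sheaf of `Z` on `Δ_z`, the connecting map and the trace, and the
  coefficient of `dt` -/
  Om : Sp → Type
  om : ∀ z, I.R 1 (n + 1) a (sp z) → Om z
  rs : ∀ z, Br z → Om z → Fun
  /-- the family `c_z` is a section of `R^1 φ_* O_D(-k D) ⊗ T_Z` over the general points of `Z`; there
  `c_z ⊗ d/dt` -/
  Glob : (∀ g, Fin (rC g) → Fun) → Prop

/-- the projection from `𝓥` to `R^1` of `ρ ⊗ O_D`: the flat sections are mapped to the restrictions of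
their classes to `D`; its kernel is `F^1` -/
noncomputable def Symbol.pr {I : Img} {n : ℕ} {a : ℤ} (A : Symbol I n a) (g : I.G)
    (v : Fin (A.rV g) → Fun) : Fin (A.rB g) → Fun :=
  fun j => ∑ i, v i * A.cb g (I.one 1 a _ n (A.fl g i)) j

/-- the linear form on `𝓥` given by the pairing with `c` -/
noncomputable def Symbol.lam {I : Img} {n : ℕ} {a : ℤ} (A : Symbol I n a) (c : ∀ g, Fin (A.rC g) → Fun)
    (g : I.G) (v : Fin (A.rV g) → Fun) : Fun := A.pair g (c g) (A.pr g v)

/-- isomorphisms with free modules over the ring of functions -/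
def FIso {A : Type} [AddCommGroup A] [Module ℂ A] {p : ℕ} (f : A → Fin p → Fun) : Prop := Iso f

/-- bilinear forms over the ring of functions -/
def Bil {p q : ℕ} (b : (Fin p → Fun) → (Fin q → Fun) → Fun) : Prop :=
  (∀ x x' y, b (x + x') y = b x y + b x' y) ∧ (∀ (t : Fun) x y, b (t • x) y = t * b x y) ∧
    (∀ x y y', b x (y + y') = b x y + b x y') ∧ ∀ (t : Fun) x y, b x (t • y) = t * b x y

/-- The rules at a general point. -/
structure Symbol.Gen {I : Img} {n : ℕ} {a : ℤ} (A : Symbol I n a) : Prop where
  iso_fn : ∀ g, Iso (A.fn g)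
  iso_cc : ∀ g, FIso (A.cc g)
  iso_cb : ∀ g, FIso (A.cb g)
  fn_mul : ∀ g x y, A.fn g (I.mul 0 1 0 _ x y) = A.fn g x * A.fn g y
  cc_mul : ∀ g x y j, A.cc g (I.mul 1 1 _ _ x y) j = A.fn g x * A.cc g y j
  cb_mul : ∀ g x y j, A.cb g (I.mul 1 1 a _ x y) j = A.fn g x * A.cb g y j
  bil : ∀ g, Bil (A.pair g)
  lin_dd : ∀ g, Lin (A.dd g)
  /-- product rule -/
  dd_mul : ∀ g x y, A.dd g (I.mul 1 (n + 1) a _ x y) = A.fn g (I.one 0 0 _ n x) * A.dd g y +
    A.pair g (A.cc g (I.d 0 (n + 1) 0 _ x)) (A.cb g (I.one 1 a _ n y))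
  /-- a class on `D_k` with values in `O(-D)`, multiplied with the equation of `D`, is a class on
  `D_(k+1)` -/
  dd_mz : ∀ g u, A.dd g (I.mz 1 n a _ (I.res 1 n (a - 1) _ u)) = 0
  /-- a flat section gives a class on `D_(k+1)`, as `ρ` is a local system -/
  dd_fl : ∀ g i, A.dd g (A.fl g i) = 0
  /-- Serre duality for the general fibres, and `𝓥 → R^1` is onto -/
  dual : ∀ g c, (∀ v, A.pair g c (A.pr g v) = 0) → ∀ j, c j = 0

/-- The rules at a special point `z`. -/
structure Symbol.Spec {I : Img} {n : ℕ} {a : ℤ} (A : Symbol I n a) : Prop where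
  rho_res : ∀ z β j u, A.rho z β j (I.res 1 j a _ u) = I.res 1 j a _ (A.rho z β (j + 1) u)
  rs_om : ∀ z β u, A.rs z β (A.om z u) = A.dd (A.near z β) (A.rho z β (n + 1) u)
  /-- A section of the dualising sheaf of the seminormal curve is a system of 1-forms on the branches
  with at most simple poles, and the sum of the residues is zero. -/
  residue : ∀ z β ω, (∀ β', β' ≠ β → A.rs z β' ω = 0) → A.rs z β ω ∈ A.Reg z β
  /-- the eigenvalues of the residue are positive, so the product of the coordinate of the branch and of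
  `∇_(d/dt)` is bijective -/
  onto : ∀ z β, ∀ e ∈ A.Lat z β, ∃ e' ∈ A.Lat z β, co (A.az z β) • der e' = e
  /-- Let `D_z` be the fibre of `D` over `z`. The Du Bois complex `Ω^0` of the pair `(D, D_z)` is the sum of
  its parts on the branches, and `R^1` of its product with `ρ` is the quotient of Deligne's extension by
  the extension of `F^1` (Steenbrink 1977, Kollár 1986, Saito 1990; for pairs see Kovács 2011, Fujino and
  Fujisawa 2014). It maps to the Du Bois complex of `D`, which is `O_D` (Kollár and Kovács 2010). -/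
  cls : ∀ z β, ∀ e ∈ A.Lat z β, ∃ u, A.cb _ (A.rho z β 1 u) = A.pr _ e ∧
    ∀ β', β' ≠ β → ∀ j, A.cb _ (A.rho z β' 1 u) j = 0

/-- The family of the linear forms `c_z` on `𝓥` is regular at the special points. -/
def Symbol.Bdd {I : Img} {n : ℕ} {a : ℤ} (A : Symbol I n a) (c : ∀ g, Fin (A.rC g) → Fun) : Prop :=
  ∀ z β, ∀ e ∈ A.Lat z β, ∃ f ∈ A.Reg z β, A.lam c _ e = co (A.az z β) * f

/-- Let `c` be a global section of `R^1 φ_* O_D(-k D) ⊗ T_Z` on the general points of `Z`. It is a linear form
on `R^1 φ_* O_D(a D)`. Over every curve in `Z` let `s` be a multivalued section of the line bundle of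
positive degree of which `O_D(a D)` is locally the product with `ρ`, such that a power of `s` is a
section which has zeros in general points. So `λ = c(s)` is a linear form on `𝓥`, with values in
functions, up to roots of unity. If `c` is regular at the special points then `λ` is a section of
Deligne's extension of the dual, with the eigenvalues of the residue in `[0, 1)`, so its Hodge norm is
`O(|log |t||^N)` (Schmid 1973; Steenbrink and Zucker 1985 for the graded parts of an admissible
variation). -/
structure Symbol.Hodge {I : Img} {n : ℕ} {a : ℤ} (A : Symbol I n a) : Prop where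
  /-- `c(dt)` for the symbol -/
  glob : ∀ τ : ∀ g, I.R 0 (n + 1) 0 (I.pt g), (∀ g, A.fn g (I.one 0 0 _ n (τ g)) = PowerSeries.X) →
    A.Glob fun g => A.cc g (I.d 0 (n + 1) 0 _ (τ g))
  /-- The part of weight zero is a unitary flat bundle, `log |λ|` is subharmonic on the curve, and it is
  `-∞` at the zeros of `s`. -/
  w0 : ∀ c, A.Glob c → A.Bdd c → ∀ g, ∀ v ∈ A.W g, A.lam c g v = 0
  /-- A linear form on the part of weight one which is zero on `F^1` and on `∇ F^1` is a section of a
  Hodge bundle of the dual in the kernel of the Higgs field, and `log |λ|` is subharmonic (the curvature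
  formula of Griffiths 1970; Simpson 1990; Zuo 2000, negativity of kernels of Kodaira-Spencer maps). -/
  w1 : ∀ c, A.Glob c → A.Bdd c → (∀ g, ∀ v ∈ A.W g, A.lam c g v = 0) →
    (∀ g v, (∀ j, A.pr g v j = 0) → A.lam c g (der v) = 0) → ∀ g v, A.lam c g v = 0

/-! ## The whole structure -/

/-- The infinitesimal neighbourhoods of `D`. -/
structure Nbhd (l b : ℕ) where
  C : Coh
  cex : C.Exact l
  I : Img
  iex : I.Exact
  G : Germ C I
  b_pos : 0 < b
  /-- a general section of `O(M D)` on `D`, `M > 0` a multiple of `b`: its divisor is the sum of different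
  fibres over general points of `Z` -/
  s : ∀ M : ℕ, Fin (C.h 0 1 M) → ℂ
  /-- these points -/
  V : ℕ → Set I.G
  /-- The line bundle `O(M D)` on `D_(n+1)` is trivial near the fibre. -/
  zero : ∀ n M : ℕ, 0 < M → b ∣ M → (∀ j, j < n + 1 → I.S j) → ∀ u, C.one 0 M n u = s M → ∀ g ∈ V M,
    ∃ f e, I.one 0 0 _ n f ∈ I.mx (I.pt g) ∧ G.loc 0 (n + 1) M (I.pt g) u = I.mul 0 (n + 1) M _ f e
  /-- Let `W` be the divisor of `s M`. The cohomology sequence of
  `0 → O_D(-k D) → O_D((M - k) D) → O_W((M - k) D) → 0`, where the first map is the product with `s M`, and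
  `k = n + 1`. The connecting map `d` is the sum of `d₀` and the product with `x`. -/
  div : ∀ n M : ℕ, 0 < M → b ∣ M → ∀ u, C.one 0 M n u = s M →
    (∀ g ∈ V M, G.loc 1 1 _ (I.pt g) (C.d₀ 0 (n + 1) M u) ∈ I.Fil 1 0 _ _ 1) →
    ∃ x, C.d 0 (n + 1) M x u = 0
  /-- the covering -/
  cover : ∀ (n M : ℕ) x u, 0 < M → b ∣ M → C.rD 0 n M x u = s M → Nonempty (C.Cover n M x)
  symbol : ∀ n : ℕ, (∀ j, j < n + 1 → I.S j) → (∀ j, 1 ≤ j → j < n + 1 → C.E l j) →
    Symbol I n (l + n + 2)
  gen : ∀ n h h', (symbol n h h').Gen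
  spec : ∀ n h h', (symbol n h h').Spec
  hodge : ∀ n h h', (symbol n h h').Hodge

end Pool.Agent.H76.F4
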