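import Pool.Agent.H76.F4.Top
import Pool.Agent.H15.XF.Defs
import Pool.Agent.H60.PF.Defs
import Pool.Agent.H76.F4.Forms

/-!
# MP_5ee2d0_ag: smooth projective fourfolds with trivial canonical class and b-divisors
-/

namespace Pool.Agent.H76.F4

open Pool.Agent.H15.XF Pool.Agent.H60.PF

/-- A smooth projective fourfold `X` with `K_X ~ 0` and `H^1(X, O_X) = 0`. -/
structure Fourfold (r : ℕ) extends Four r where
  /-- the classes of b-divisors on `X` -/
  B : BCl r
  link : Link X B
  rl_A : X.rl X.A = B.A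
  int : ∀ x y z w,
    B.I (B.pb (X.rl x)) (B.pb (X.rl y)) (B.pb (X.rl z)) (B.pb (X.rl w)) = Q x y z w
  /-- Kleiman: if `x` is nef and `t > 0` then `x + t A` is ample and so it is a positive combination of very
  ample classes -/
  mov : ∀ x, B.Nef (B.pb x) → X.num.Mov x
  ne : Nonempty X.Pr
  /-- the closed positive currents in the class of a nef line bundle -/
  cur : ∀ x, X.Nef x → Cur B (X.rl x)
  forms : ∀ x (hx : X.Nef x), X.Forms (cur x hx)
  /-- nef line bundles of numerical dimension two -/
  two : ∀ x (hx : X.Nef x), Q x x x X.A = 0 → Q x x X.A X.A ≠ 0 →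
    Sys (cur x hx) (X.chi 0) fun m => ∃ p v, v ≠ 0 ∧ (forms x hx).sec p m v
  pencils : ∀ x, X.Nef x → Pencils X B x

end Pool.Agent.H76.F4
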