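import Pool.Agent.H15.XF.Lin

/-!
# Nef classes of numerical dimension two
-/

namespace Pool.Agent.H76.F4

open Pool.Agent.H15.XF

variable {r : ℕ}

/-- If `L^3.A = 0` then `L^3` is numerically trivial. -/
theorem two_of (B : BCl r) {L : Fin r → ℝ} (hL : B.Nef (B.pb L))
    (ample : ∀ y, ∃ t : ℝ, B.Nef (B.pb (t • B.A + y)))
    (proj : ∀ v, ∃ y, ∀ x,
      B.I v (B.pb x) (B.pb x) (B.pb x) = B.I (B.pb y) (B.pb x) (B.pb x) (B.pb x))
    (h0 : B.I (B.pb L) (B.pb L) (B.pb L) (B.pb B.A) = 0)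
    (h1 : B.I (B.pb L) (B.pb L) (B.pb B.A) (B.pb B.A) ≠ 0) : Two B L where
  nef := hL
  cube v := by
    have hrot : ∀ w, B.I (B.pb L) (B.pb L) (B.pb L) w = B.I w (B.pb L) (B.pb L) (B.pb L) := fun w => by
      rw [B.symm34, B.symm23, B.symm12]
    have key : ∀ y : Fin r → ℝ, 0 ≤ B.I (B.pb L) (B.pb L) (B.pb L) (B.pb y) := fun y => by
      obtain ⟨t, ht⟩ := ample y
      have h2 := B.nonneg _ _ _ _ hL hL hL ht
      rw [BCl.pb_add, BCl.pb_smul, BCl.I4_add, BCl.I4_smul, h0, mul_zero, zero_add] at h2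
      exact h2
    obtain ⟨y, hy⟩ := proj v
    rw [hrot, hy, ← hrot]
    refine le_antisymm ?_ (key y)
    have h2 := key ((-1 : ℝ) • y)
    rw [BCl.pb_smul, BCl.I4_smul] at h2
    linarith
  pos := lt_of_le_of_ne (B.nonneg _ _ _ _ hL hL B.nef_A B.nef_A) h1.symm

end Pool.Agent.H76.F4
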