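import Pool.Agent.H76.F4.Main
import Pool.Agent.H76.F4.Two
import Pool.Agent.H76.F4.FDefs
import Pool.Agent.H15.XF.Main
import Pool.Agent.H88.XF.Main
import Pool.Agent.H33.FT.Last
import Pool.Agent.H33.TF.SysF
import Pool.Agent.H87.FB.Rat
import Pool.Agent.H72.FB4.StartE
import Pool.Agent.H60.PF.One
import Pool.Agent.H59.F6.NonB
import Pool.Agent.H72.TH.FormOf

/-!
# MP_5ee2d0_ag: nef divisors on fourfolds with trivial canonical class are semiample
-/

namespace Pool.Agent.H76.F4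

open Pool.Agent.H15.XF Pool.Agent.H60.PF

/-- the facts used by `Aux.frm` -/
def toAux {r : ℕ} {B : BCl r} {L : Fin r → ℝ} {C : Cur B L} {chi : ℕ → ℤ} {Frm : ℕ → Prop}
    (S : Sys C (chi 0) Frm) (two : Two B L)
    (rat : ∃ q : ℚ, B.I (B.pb L) (B.pb L) (B.pb B.A) (B.pb B.A) = q)
    (rat' : ∀ G, B.X G → ∃ q : ℚ, B.I (B.pb L) (B.pb (B.cl G)) (B.pb B.A) (B.pb B.A) = q)
    (chi_zero : 0 < chi 0) (c : ℝ) (rr : ∀ m : ℕ, (24 * chi m : ℝ) = m ^ 2 * c + 24 * chi 0)
    (dps : ∀ T, (∀ E, C.nu T E = 0) → ∀ m : ℕ, 0 < m → chi m ≠ 0 → Frm m) :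
    Aux C Frm where
  two := two
  rat := rat
  rat' := rat'
  a := S.a
  a_X := S.a_X
  lct_pos := S.lct_pos
  lct T hT := by
    obtain ⟨c, hc, h1, ⟨Q⟩⟩ := S.lct T hT
    exact ⟨c, hc, h1, Q.exists_lt hc.le h1⟩
  fin := S.fin
  chi := chi
  chi_zero := chi_zero
  c := c
  rr := rr
  dps := dps
  prog := S.steps

namespace Fourfold

variable {r : ℕ} (F : Fourfold r)

/-- the intersection number `x.y.A^2` -/
def f (x y : Vec r) : ℝ := F.B.I (F.B.pb x) (F.B.pb y) (F.B.pb F.B.A) (F.B.pb F.B.A)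

theorem f_eq (x y : F.X.P) : F.f (F.X.rl x) (F.X.rl y) = F.Q x y F.X.A F.X.A := by
  rw [f, ← F.rl_A, F.int]

theorem div : F.X.Divisors F.f where
  toPic := F.pic
  form := Pool.Agent.H72.TH.form_of F.link F.ne F.rl_A (fun _ _ => rfl) F.mov
  mov x hx := F.mov _ (F.link.nef x hx)

theorem nonneg (x : F.X.P) (hx : F.X.Nef x) : 0 ≤ F.Q x x x x := by
  have hn := F.link.nef x hx
  have h := F.B.nonneg _ _ _ _ hn hn hn hn
  rw [F.int] at h
  exact_mod_cast h

/-- numerical dimension at most one -/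
theorem effective_of_one (x : F.X.P) (hx : F.X.Nef x) (h : F.Q x x F.X.A F.X.A = 0) :
    ∃ m : ℕ, 0 < m ∧ F.X.h 0 (m • x) ≠ 0 :=
  Pool.Agent.H59.F6.nonvanishing F.link F.div hx (by rw [F.f_eq, h, Int.cast_zero]) (fun _ _ => rfl)
    (F.forms x hx) fun m _ h2 => by
    have h1 := F.toFour.two_le_chi x hx (F.nonneg x hx) m
    rw [h2] at h1
    norm_num at h1

/-- the class of a nef line bundle of numerical dimension two -/
theorem toTwo (x : F.X.P) (hx : F.X.Nef x) (h3 : F.Q x x x F.X.A = 0)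
    (h1 : F.Q x x F.X.A F.X.A ≠ 0) : Two F.B (F.X.rl x) :=
  two_of F.B (F.link.nef x hx) F.B.ample (fun v => ⟨F.B.cx v, fun y => F.B.proj v y y y⟩)
    (by rw [← F.rl_A, F.int, h3, Int.cast_zero])
    (by
      have h := F.f_eq x x
      rw [f] at h
      rw [h]
      exact_mod_cast h1)

/-- numerical dimension two -/
theorem effective_of_two (x : F.X.P) (hx : F.X.Nef x) (h3 : F.Q x x x F.X.A = 0)
    (h1 : F.Q x x F.X.A F.X.A ≠ 0) : ∃ m : ℕ, 0 < m ∧ F.X.h 0 (m • x) ≠ 0 := by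
  by_contra hcon
  have hno : ∀ k : ℕ, 0 < k → F.X.h 0 (k • x) = 0 := fun k hk => by
    by_contra h
    exact hcon ⟨k, hk, h⟩
  have T := F.toTwo x hx h3 h1
  have h4 : F.Q x x x x = 0 := by
    have h := T.cube (F.B.pb (F.X.rl x))
    rw [F.int] at h
    exact_mod_cast h
  let S : Aux (F.cur x hx) fun m => ∃ p v, v ≠ 0 ∧ (F.forms x hx).sec p m v :=
    toAux (chi := fun m => F.X.chi (m • x)) (by rw [zero_smul]; exact F.two x hx h3 h1) T
      ⟨(F.Q x x F.X.A F.X.A : ℤ), by rw [← F.rl_A, F.int, Rat.cast_intCast]⟩ (fun G hG => by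
        obtain ⟨G, rfl⟩ := F.link.pr_onto G hG
        refine ⟨(F.Q x (F.X.O G) F.X.A F.X.A : ℤ), ?_⟩
        rw [F.link.cl, F.div.cl_eq, ← F.rl_A, F.int, Rat.cast_intCast])
      (by
        have h := F.toFour.two_le_chi x hx (F.nonneg x hx) 0
        exact lt_of_lt_of_le (by norm_num) h)
      (F.c x) (fun m => by
        have h := F.toFour.rr' x m
        rw [h4, mul_zero, zero_add] at h
        rw [zero_smul]
        exact_mod_cast h)
      (fun T hT m hm hchi => by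
        obtain ⟨q, hq, h⟩ := Pool.Agent.H59.F6.exists_h hchi
        obtain ⟨v, h1, h2⟩ := (F.forms x hx).dps T hT q m hq hm h
        exact ⟨_, v, h1, h2⟩)
  have hfrm := S.frm (Pool.Agent.H88.XF.lemmaM F.B _)
    (Pool.Agent.H88.XF.extCore F.B _) (fun _ _ Y h => Y.local h.le)
    (fun _ _ Y => Pool.Agent.H87.FB.ratE Y) (fun _ _ Y => Pool.Agent.H87.FB.ratD Y)
    (Pool.Agent.H72.FB4.startE F.B _) (Pencils.startD F.link F.div (F.pencils x hx) hno)
  exact hcon (Pencils.section_of_forms F.link F.div (F.pencils x hx) T (F.forms x hx) fun N => by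
    obtain ⟨m, h, h'⟩ := hfrm (N + 1)
    exact ⟨m, by omega, h'⟩)

/-- **Theorem.** `X` is a smooth projective fourfold, `K_X ~ 0` and `H^1(X, O_X) = 0`. Every nef line bundle
on `X` is semiample. -/
theorem semiample (x : F.X.P) (hx : F.X.Nef x) : F.X.Semiample x := by
  by_cases h3 : F.Q x x x F.X.A = 0
  swap
  · exact F.toFour.semiample_of_three x hx (F.nonneg x hx) h3
  obtain ⟨m, hm, h⟩ : ∃ m : ℕ, 0 < m ∧ F.X.h 0 (m • x) ≠ 0 := by
    by_cases h1 : F.Q x x F.X.A F.X.A = 0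
    · exact F.effective_of_one x hx h1
    · exact F.effective_of_two x hx h3 h1
  exact F.toFour.semiample_of_effective x hx (F.nonneg x hx) m hm h

end Fourfold

end Pool.Agent.H76.F4
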