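import Pool.Agent.H76.F4.Defs

namespace Pool.Agent.H76.F4

section

variable {A B : Type} [AddCommGroup A] [Module ℂ A] [AddCommGroup B] [Module ℂ B] {f : A → B}

theorem Lin.add (h : Lin f) (x y : A) : f (x + y) = f x + f y := h.1 x y

theorem Lin.smul (h : Lin f) (t : ℂ) (x : A) : f (t • x) = t • f x := h.2 t x

/-- a linear map -/
def Lin.map (h : Lin f) : A →ₗ[ℂ] B := { toFun := f, map_add' := h.1, map_smul' := h.2 }

theorem Lin.zero (h : Lin f) : f 0 = 0 := map_zero h.map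

theorem Lin.neg (h : Lin f) (x : A) : f (-x) = -f x := map_neg h.map x

theorem Lin.sub (h : Lin f) (x y : A) : f (x - y) = f x - f y := map_sub h.map x y

theorem Lin.sum (h : Lin f) {p : ℕ} (v : Fin p → A) : f (∑ i, v i) = ∑ i, f (v i) :=
  map_sum h.map v Finset.univ

theorem Lin.comp {C : Type} [AddCommGroup C] [Module ℂ C] {g : B → C} (hg : Lin g) (h : Lin f) :
    Lin fun x => g (f x) :=
  ⟨fun x y => (congrArg g (h.add x y)).trans (hg.add _ _),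
    fun t x => (congrArg g (h.smul t x)).trans (hg.smul _ _)⟩

end

variable {l b : ℕ} {I : Img}

theorem Img.one_lin (hI : I.Exact) (q : ℕ) (m : ℤ) (z : I.Z) : ∀ n, Lin (I.one q m z n)
  | 0 => ⟨fun _ _ => rfl, fun _ _ => rfl⟩
  | n + 1 => (Img.one_lin hI q m z n).comp (hI.lin_res q (n + 1) m z)

theorem Img.Fil_zero (q n : ℕ) (m : ℤ) (z : I.Z) : I.Fil q n m z 0 = Set.univ := rfl

theorem Img.Fil_succ (q n : ℕ) (m : ℤ) (z : I.Z) (N : ℕ) : I.Fil q n m z (N + 1) =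
    Prods (I.mul q (n + 1) m z) {f | I.one 0 0 z n f ∈ I.mx z} (I.Fil q n m z N) :=
  Function.iterate_succ_apply' _ _ _

theorem Img.Fil_mul {q n : ℕ} {m : ℤ} {z : I.Z} {N : ℕ} {f : I.R 0 (n + 1) 0 z} {x : I.R q (n + 1) m z}
    (hf : I.one 0 0 z n f ∈ I.mx z) (hx : x ∈ I.Fil q n m z N) :
    I.mul q (n + 1) m z f x ∈ I.Fil q n m z (N + 1) := by
  rw [Img.Fil_succ]
  exact AddSubgroup.subset_closure ⟨f, hf, x, hx, rfl⟩

theorem Img.Fil_add {q n : ℕ} {m : ℤ} {z : I.Z} {N : ℕ} {x y : I.R q (n + 1) m z}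
    (hx : x ∈ I.Fil q n m z N) (hy : y ∈ I.Fil q n m z N) : x + y ∈ I.Fil q n m z N := by
  rcases N with _ | N
  · exact Set.mem_univ _
  · rw [Img.Fil_succ] at hx hy ⊢
    exact AddSubgroup.add_mem _ hx hy

/-- an additive map which maps the products into the filtration -/
theorem Img.Fil_induct {q n : ℕ} {m : ℤ} {z : I.Z} {N : ℕ} {q' : ℕ} {m' : ℤ} {N' : ℕ}
    {g : I.R q (n + 1) m z → I.R q' 1 m' z} (hg : Lin g)
    (h : ∀ f x, I.one 0 0 z n f ∈ I.mx z → x ∈ I.Fil q n m z N →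
      g (I.mul q (n + 1) m z f x) ∈ I.Fil q' 0 m' z (N' + 1))
    {y : I.R q (n + 1) m z} (hy : y ∈ I.Fil q n m z (N + 1)) : g y ∈ I.Fil q' 0 m' z (N' + 1) := by
  rw [Img.Fil_succ] at hy h ⊢
  refine AddSubgroup.closure_induction (p := fun y _ => g y ∈ Prods (I.mul q' (0 + 1) m' z)
    {f | I.one 0 0 z 0 f ∈ I.mx z} (I.Fil q' 0 m' z N')) ?_ ?_ ?_ ?_ hy
  · rintro _ ⟨f, hf, x, hx, rfl⟩
    exact h f x hf hx
  · rw [hg.zero]
    exact AddSubgroup.zero_mem _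
  · intro x y _ _ hx hy
    rw [hg.add]
    exact AddSubgroup.add_mem _ hx hy
  · intro x _ hx
    rw [hg.neg]
    exact AddSubgroup.neg_mem _ hx

theorem Img.Exact.cup_fil (hI : I.Exact) (q n : ℕ) (m : ℤ) (z : I.Z) (c : I.R 1 1 (0 - (n + 1 : ℕ)) z) :
    ∀ (N : ℕ) (y : I.R q (n + 1) m z), y ∈ I.Fil q n m z N →
      I.cup q (n + 1) m z y c ∈ I.Fil (q + 1) 0 (m - (n + 1 : ℕ)) z N
  | 0, _, _ => Set.mem_univ _
  | N + 1, _, hy => I.Fil_induct ((hI.lin_cup q (n + 1) m z).2 c) (fun f x hf hx => by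
      rw [hI.cup_mul]
      exact I.Fil_mul (n := 0) hf (hI.cup_fil q n m z c N x hx)) hy

/-- The connecting map and the filtrations. -/
theorem Img.Exact.d_fil (hI : I.Exact) (q n : ℕ) (m : ℤ) (z : I.Z) :
    ∀ (N : ℕ) (y : I.R q (n + 1) m z), y ∈ I.Fil q n m z (N + 1) →
      I.d q (n + 1) m z y ∈ I.Fil (q + 1) 0 (m - (n + 1 : ℕ)) z N
  | 0, _, _ => Set.mem_univ _
  | N + 1, _, hy => I.Fil_induct (hI.lin_d q (n + 1) m z) (fun f x hf hx => by
      have h1 := hI.d_mul q n m z f x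
      beta_reduce at h1
      rw [h1]
      exact I.Fil_add (I.Fil_mul (n := 0) hf (hI.d_fil q n m z N x hx))
        (hI.cup_fil q n m z _ (N + 1) x hx)) hy

/-- If the classes of large degree on `D_k` extend to `D_(k+1)` then the direct images are mapped onto each
other. -/
theorem Nbhd.serre (N : Nbhd l b) (k : ℕ) (hk : 1 ≤ k) (hS : ∀ j, j < k → N.I.S j)
    (h : ∀ q, ∃ m₀ : ℤ, ∀ m, m₀ ≤ m → ∀ t, N.C.Ext q k m t) : N.I.S k := by
  obtain ⟨n, rfl⟩ : ∃ j, k = j + 1 := ⟨k - 1, by omega⟩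
  intro q m z y
  refine (N.iex.exact q (n + 1) m z y).1 (N.iex.krull _ _ _ _ fun p => ?_)
  obtain ⟨m₀, h₀⟩ := h 0
  obtain ⟨m₁, h₁⟩ := h q
  obtain ⟨M, t, s, hM, ht⟩ := N.G.approx n hS q m z y (p + 1) (max m₀ (m₁ - m))
  have h3 := N.G.fr_ext q n m M z t s (h₁ (m + M) (by have := le_trans (le_max_right _ _) hM; omega) t)
    (h₀ M (le_trans (le_max_left _ _) hM) s)
  have h2 := N.iex.d_fil q n m z p _ ht
  rwa [(N.iex.lin_d q (n + 1) m z).sub, (N.iex.exact q (n + 1) m z _).2 h3, sub_zero] at h2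

end Pool.Agent.H76.F4
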