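import Pool.Agent.H76.F4.Serre

/-! Cyclic coverings branched along general fibres (after helper31's Extend.lean). -/

namespace Pool.Agent.H76.F4

variable {l b : ℕ}

section Cover

variable {C : Coh} {n M : ℕ} {x : Fin (C.h 1 1 (-(n + 1 : ℕ))) → ℂ}

/-- `H^q(D_(k+1), O(m D) ⊗ (m / M) x) → H^q(D, O(m D))` is onto for `-M < m ≤ 0` -/
lemma Coh.Cover.onto_rD (c : C.Cover n M x) (q : ℕ) (m : ℤ) (h1 : -(M : ℤ) < m) (h2 : m ≤ 0)
    (w : Fin (C.h q 1 m) → ℂ) : ∃ u, C.rD q n m (C.pw n M x m) u = w := by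
  obtain ⟨a, ha⟩ := c.dubois q fun m' => if h : m = m' then h ▸ w else 0
  refine ⟨c.f q m a, ?_⟩
  rw [ha m h1 h2, dif_pos rfl]

/-- The second sequence with the sheaf `O(m' D) ⊗ (m' / M) x` splits into short exact sequences. By
duality the first sequence with the sheaf `O(m D) ⊗ (-m' / M) x` does, `m + m' = l + k + 1`. -/
lemma Coh.Cover.d_eq (c : C.Cover n M x) (hC : C.Exact l) (q : ℕ) (m m' : ℤ)
    (hm : m + m' = l + (n + 1 : ℕ) + 1) (h1 : -(M : ℤ) < m') (h2 : m' ≤ 0)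
    (t : Fin (C.h q (n + 1) m) → ℂ) : C.d q (n + 1) m (-C.pw n M x m') t = 0 := by
  by_cases hq : q ≤ 2
  · obtain ⟨q', hq'⟩ := Nat.exists_eq_add_of_le hq
    obtain ⟨b, b', hb, hb', h⟩ := hC.dual q q' n m m' (-C.pw n M x m') hq'.symm hm
    rw [neg_neg] at h
    refine hb'.2.1 _ fun w => ?_
    obtain ⟨u, rfl⟩ := c.onto_rD q' m' h1 h2 w
    rw [h, (hC.exact_rD q' n m' _ _).2 ⟨u, rfl⟩]
    exact (hb.1.1 t).zero
  · have h0 := hC.dim (q + 1) (m - (n + 1 : ℕ)) (by omega)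
    funext i
    exact (Fin.cast h0 i).elim0

/-- the section extends -/
lemma Coh.Cover.extends_ (c : C.Cover n M x) (hC : C.Exact l) (hM : l + (n + 1) + 1 ≤ M)
    (s : Fin (C.h 0 (n + 1) M) → ℂ) (hs : C.d 0 (n + 1) M x s = 0) : C.d₀ 0 (n + 1) M s = 0 := by
  have h1 := c.d_eq hC 0 M ((l : ℤ) + (n + 1 : ℕ) + 1 - M) (by ring) (by omega) (by omega) s
  have e : -C.pw n M x ((l : ℤ) + (n + 1 : ℕ) + 1 - M) =
      (-((((l : ℤ) + (n + 1 : ℕ) + 1 - M : ℤ) : ℂ) / M)) • x := by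
    unfold Coh.pw
    rw [neg_smul]
  have h2 := hC.aff 0 (n + 1) M s (-((((l : ℤ) + (n + 1 : ℕ) + 1 - M : ℤ) : ℂ) / M)) x
  beta_reduce at h2
  rw [e, h2, hs, zero_sub, smul_neg, neg_smul, neg_neg] at h1
  have hM0 : (M : ℂ) ≠ 0 := by
    have : M ≠ 0 := by omega
    exact_mod_cast this
  have h3 : (1 + (((l : ℤ) + (n + 1 : ℕ) + 1 - M : ℤ) : ℂ) / M) • C.d 0 (n + 1) M 0 s = 0 := by
    rw [add_smul, one_smul]
    exact h1
  have h4 : (1 + (((l : ℤ) + (n + 1 : ℕ) + 1 - M : ℤ) : ℂ) / M) ≠ 0 := by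
    have e : (1 + (((l : ℤ) + (n + 1 : ℕ) + 1 - M : ℤ) : ℂ) / M) = ((l + n + 2 : ℕ) : ℂ) / M := by
      push_cast
      field_simp
      ring
    rw [e]
    exact div_ne_zero (Nat.cast_ne_zero.mpr (Nat.succ_ne_zero (l + n + 1))) hM0
  exact (smul_eq_zero.mp h3).resolve_left h4

end Cover

lemma Coh.one_onto (C : Coh) (q : ℕ) (m : ℤ) (k : ℕ) (h : ∀ j, 1 ≤ j → j < k + 1 → ∀ t, C.Ext q j m t) :
    ∀ y, ∃ u, C.one q m k u = y := by
  induction k with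
  | zero => exact fun y => ⟨y, rfl⟩
  | succ k ih =>
    intro y
    obtain ⟨v, rfl⟩ := ih (fun j h1 h2 => h j h1 (by omega)) y
    obtain ⟨u, rfl⟩ := h (k + 1) (by omega) (by omega) v
    exact ⟨u, rfl⟩

lemma Coh.one_lin (C : Coh) (hC : C.Exact l) (q : ℕ) (m : ℤ) : ∀ k, Lin (C.one q m k)
  | 0 => ⟨fun _ _ => rfl, fun _ _ => rfl⟩
  | k + 1 => (C.one_lin hC q m k).comp (hC.lin q (k + 1) m)

/-- If the functions on `D_(k+1)` extend to `D_(k+2)` near the fibres over the general points of `Z` then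
the divisor of a section with a general restriction, which is a union of fibres over such points, extends. -/
theorem Nbhd.ext (N : Nbhd l b) (n M : ℕ) (hM : 0 < M) (hb : b ∣ M) (hS : ∀ j, j < n + 1 → N.I.S j)
    (hL : ∀ g f, N.I.Ext 0 (n + 1) 0 (N.I.pt g) f) (u : Fin (N.C.h 0 (n + 1) M) → ℂ)
    (hu : N.C.one 0 M n u = N.s M) : ∃ x, N.C.d 0 (n + 1) M x u = 0 := by
  refine N.div n M hM hb u hu fun g hg => ?_
  obtain ⟨f, e, hf, he⟩ := N.zero n M hM hb hS u hu g hg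
  have h1 : N.I.d 0 (n + 1) 0 (N.I.pt g) f = 0 := (N.iex.exact _ _ _ _ f).2 (hL g f)
  have h2 := N.G.loc_d 0 (n + 1) M (N.I.pt g) u
  have h3 := N.iex.d_mul 0 n M (N.I.pt g) f e
  have h4 : N.I.cup 0 (n + 1) M (N.I.pt g) e 0 = 0 := ((N.iex.lin_cup 0 (n + 1) M _).1 e).zero
  beta_reduce at h3
  rw [he, h3, h1, h4, add_zero] at h2
  have h5 := N.I.Fil_mul (q := 1) (n := 0) (m := M - (n + 1 : ℕ)) (N := 0) (x := N.I.d 0 (n + 1) M _ e) hf
    (Set.mem_univ _)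
  exact h2 ▸ h5

/-- If the functions extend over the general points then all classes of degree at least `l + k + 1`
extend from `D_k` to `D_(k+1)`. -/
theorem Nbhd.extend (N : Nbhd l b) (k : ℕ) (hk : 1 ≤ k) (hE : ∀ j, 1 ≤ j → j < k → N.C.E l j)
    (hS : ∀ j, j < k → N.I.S j) (hL : ∀ g f, N.I.Ext 0 k 0 (N.I.pt g) f) : N.C.E l k := by
  obtain ⟨n, rfl⟩ : ∃ n, k = n + 1 := ⟨k - 1, by omega⟩
  have hb := N.b_pos
  intro q m hm t
  obtain ⟨j, hj⟩ := Int.eq_ofNat_of_zero_le (by omega : 0 ≤ m - (l + (n + 1 : ℕ) + 1))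
  -- a large multiple of `b`
  set M : ℕ := b * (j + l + (n + 1) + 2) with hMdef
  have hMle : j + l + (n + 1) + 2 ≤ M := Nat.le_mul_of_pos_left _ hb
  have hbM : b ∣ M := Dvd.intro _ rfl
  obtain ⟨s, hs⟩ := N.C.one_onto 0 M n (fun j h1 h2 t => hE j h1 h2 0 M (by omega) t) (N.s M)
  -- the section `s` extends
  obtain ⟨x, hx⟩ := N.ext n M (by omega) hbM hS hL s hs
  obtain ⟨u, hu⟩ := (N.cex.exact_rT 0 n M x s).1 hx
  obtain ⟨c⟩ := N.cover n M x u (by omega) hbM ((congrArg (N.C.one 0 M n) hu).trans hs)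
  have h1 := c.extends_ N.cex (by omega) s hx
  -- the covering branched along its divisor
  obtain ⟨u, hu⟩ := (N.cex.exact_rT 0 n M 0 s).1 h1
  obtain ⟨c⟩ := N.cover n M 0 u (by omega) hbM ((congrArg (N.C.one 0 M n) hu).trans hs)
  refine (N.cex.exact q n m t).1 ?_
  have h2 := c.d_eq N.cex q m (-j) (by push_cast at hj ⊢; omega) (by omega) (by omega) t
  unfold Coh.pw at h2
  rwa [smul_zero, neg_zero] at h2

end Pool.Agent.H76.F4
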