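import Pool.Agent.H76.F4.Symb
import Pool.Agent.H76.F4.Serre
import Pool.Agent.H76.F4.Trick

namespace Pool.Agent.H76.F4


variable {l b : ℕ}

/-- The functions on `D_k` extend to `D_(k+1)` over the general points. -/
theorem Symbol.extend {I : Img} {n : ℕ} {a : ℤ} (A : Symbol I n a) (hI : I.Exact)
    (hG : A.Gen) (hP : A.Spec) (hH : A.Hodge) (hS : ∀ j, j < n + 1 → I.S j) :
    ∀ g f, I.Ext 0 (n + 1) 0 (I.pt g) f := by
  have h1 : ∀ g, ∃ τ, A.fn g (I.one 0 0 _ n τ) = PowerSeries.X := fun g => hG.lift hS g _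
  choose τ hτ using h1
  have hc := fun g v u hu => hG.connect hI hS g (τ g) (hτ g) v u hu
  have hb : A.Bdd fun g => A.cc g (I.d 0 (n + 1) 0 _ (τ g)) := hP.bdd hG hS _ hc
  have hgl := hH.glob τ hτ
  have h0 := hH.w0 _ hgl hb
  have h2 : ∀ g v, (∀ j, A.pr g v j = 0) →
      A.pair g (A.cc g (I.d 0 (n + 1) 0 _ (τ g))) (A.pr g (der v)) = 0 := by
    intro g v hv
    have hb : Lin (A.cb g) := (hG.iso_cb g).1
    rw [← hc g v 0 (by rw [(I.one_lin hI 1 a _ n).zero, hb.zero]; exact (funext hv).symm),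
      (hG.lin_dd g).zero]
  have h3 := hH.w1 _ hgl hb h0 h2
  intro g
  exact hG.functions hI hS g (τ g) (hτ g) (hG.dual g _ (h3 g))

/-- **Theorem.** All classes of degree at least `l + k + 1` on `D_k` extend to `D_(k+1)`. -/
theorem Nbhd.all (N : Nbhd l b) : ∀ k, 1 ≤ k → N.C.E l k ∧ N.I.S k := by
  intro k
  induction k using Nat.strong_induction_on with
  | _ k ih =>
    intro hk
    obtain ⟨n, rfl⟩ : ∃ n, k = n + 1 := ⟨k - 1, by omega⟩
    have hE : ∀ j, 1 ≤ j → j < n + 1 → N.C.E l j := fun j h h' => (ih j h' h).1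
    have hS : ∀ j, j < n + 1 → N.I.S j := by
      intro j hj
      rcases Nat.eq_zero_or_pos j with rfl | h
      · intro q m z y
        exact ⟨0, (N.iex.zero q m z).elim _ _⟩
      · exact (ih j hj h).2
    have hL := (N.symbol n hS hE).extend N.iex (N.gen n hS hE) (N.spec n hS hE) (N.hodge n hS hE) hS
    have h1 := N.extend (n + 1) hk hE hS hL
    exact ⟨h1, N.serre (n + 1) hk hS fun q => ⟨l + (n + 1 : ℕ) + 1, fun m hm t => h1 q m hm t⟩⟩

/-- All sections of `O(M D)` on `D` extend to the neighbourhood `D_(n+1)`, `M ≥ l + n + 1`. -/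
theorem Nbhd.lift (N : Nbhd l b) (M : ℤ) (n : ℕ) (h : (l + n + 1 : ℤ) ≤ M) :
    ∀ y, ∃ u, N.C.one 0 M n u = y :=
  N.C.one_onto 0 M n fun j h1 h2 t => (N.all j h1).1 0 M (by omega) t

end Pool.Agent.H76.F4
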