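import Pool.Agent.H76.F4.Non
import Pool.Agent.H60.FF.Nu3
import Pool.Agent.H76.F4.Top
import Pool.Agent.H76.F4.Tow

namespace Pool.Agent.H76.F4


theorem Model.onto {r : ℕ} {X : Var r} {x : X.P} (M : Model X x) (h3 : X.h 3 0 = 0) (a n : ℕ)
    (h : M.b * a = M.l + n + 1) (y) : ∃ u, M.rs a n u = y := by
  refine (M.exact a n h y).1 (funext fun i => ?_)
  rw [h3] at i
  exact i.elim0

/-- There is a second section. -/
theorem Model.two {r : ℕ} {X : Var r} {x : X.P} (M : Model X x) (h3 : X.h 3 0 = 0) :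
    ∃ m : ℕ, 0 < m ∧ 2 ≤ X.h 0 (m • x) := by
  obtain ⟨a, n, ha, hn⟩ : ∃ a n : ℕ, 0 < a ∧ M.b * a = M.l + n + 1 := by
    have hb := M.N.b_pos
    refine ⟨M.l + 1, M.b * (M.l + 1) - (M.l + 1), Nat.succ_pos _, ?_⟩
    have : M.l + 1 ≤ M.b * (M.l + 1) := Nat.le_mul_of_pos_left _ hb
    omega
  have h0 := M.nonzero a ha
  obtain ⟨y, hy⟩ : ∃ y : Fin (M.N.C.h 0 1 (M.b * a : ℕ)) → ℂ, y ≠ 0 :=
    ⟨fun _ => 1, fun h => one_ne_zero (congrFun h ⟨0, h0⟩)⟩
  obtain ⟨u, hu⟩ := M.N.lift (M.b * a : ℕ) n (by rw [hn]; push_cast; linarith) y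
  obtain ⟨s, hs⟩ := M.onto h3 a n hn u
  obtain ⟨t, ⟨j, ht⟩, ht'⟩ := M.can a n ha
  obtain ⟨m, hm, hle⟩ := M.le a ha
  refine ⟨m, hm, le_trans ?_ hle⟩
  have hli : LinearIndependent ℂ ![t, s] := by
    rw [LinearIndependent.pair_iff]
    intro p q h
    have h1 := congrArg (fun v => M.N.C.one 0 _ n (M.rs a n v)) h
    have h2 : Lin fun v => M.N.C.one 0 _ n (M.rs a n v) := (M.N.C.one_lin M.N.cex 0 _ n).comp (M.lin_rs a n)
    rw [h2.add, h2.smul, h2.smul, h2.zero, funext ht', hs, hu] at h1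
    have h1 : q • y = 0 := by
      refine Eq.trans ?_ h1
      rw [show (fun _ => 0 : Fin (M.N.C.h 0 1 (M.b * a : ℕ)) → ℂ) = 0 from rfl, smul_zero, zero_add]
    have hq : q = 0 := (smul_eq_zero.mp h1).resolve_right hy
    rw [hq, zero_smul, add_zero] at h
    exact ⟨(smul_eq_zero.mp h).resolve_right fun h => ht (congrFun h j), hq⟩
  have := hli.fintype_card_le_finrank
  rwa [Module.finrank_fin_fun, Fintype.card_fin] at this

/-- Riemann-Roch theorem for the multiples `m x`, `m ≥ 0` -/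
theorem Four.rr' {r : ℕ} (F : Four r) (x : F.X.P) (m : ℕ) :
    24 * F.X.chi (m • x) = m ^ 4 * F.Q x x x x + m ^ 2 * F.c x + 24 * F.X.chi 0 := by
  have h := F.rr x m
  rw [natCast_zsmul] at h
  exact h

/-- `H^3(X, O_X) = 0` -/
theorem Four.h3 {r : ℕ} (F : Four r) : F.X.h 3 0 = 0 := by
  have h := F.serre 1 (by norm_num)
  rw [F.reg] at h
  exact h

/-- The cohomology of the multiples of a nef line bundle. -/
def Four.multiples {r : ℕ} (F : Four r) (x : F.X.P) (hx : F.X.Nef x) (hn : 0 ≤ F.Q x x x x) :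
    Pool.Agent.H60.FF.Multiples (F.Q x x x F.X.A ≠ 0) (F.X.Semiample x) where
  h i m := F.X.h i (m • x)
  d := F.Q x x x x
  c := F.c x
  d_nonneg := hn
  c_nonneg := F.miyaoka x hx
  rr m := by
    have h := F.rr' x m
    unfold Var.chi at h
    rw [F.dim, Finset.sum_range, Finset.sum_range] at h
    simp only [zero_smul]
    exact h
  one := by rw [zero_smul]; exact F.one
  reg := by rw [zero_smul]; exact F.reg
  serre i := by
    rw [zero_smul]
    have h := F.serre i (by omega)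
    have e : ((Fin.rev i : Fin 5) : ℕ) = 4 - i := by rw [Fin.val_rev]; omega
    rw [e]
    exact h
  kv hc m hm i hi := F.kv x hx hc m i hm (by simpa [Fin.le_def] using hi)
  fukuda m hm h := F.fukuda x hx m hm h

namespace Var

variable {r : ℕ} {X : Var r}

/-- multiples of a semiample line bundle -/
theorem Semiample.of_nsmul {x : X.P} {m : ℕ} (hm : 0 < m) (h : X.Semiample (m • x)) :
    X.Semiample x := by
  obtain ⟨k, hk, h1⟩ := h
  refine ⟨k * m, Nat.mul_pos hk hm, fun p => ?_⟩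
  obtain ⟨D, hD, h2⟩ := h1 p
  exact ⟨D, by rw [hD, smul_smul], h2⟩

theorem semiample_zero : X.Semiample (0 : X.P) :=
  ⟨1, one_pos, fun _ => ⟨0, by rw [line_zero, smul_zero], fun F hF => by simp at hF⟩⟩

end Var

namespace Four

variable {r : ℕ} (F : Four r)

/-- the Euler characteristics are at least two -/
theorem two_le_chi (x : F.X.P) (hx : F.X.Nef x) (hn : 0 ≤ F.Q x x x x) (m : ℕ) :
    2 ≤ F.X.chi (m • x) := by
  have h1 := (F.multiples x hx hn).two_le_chi m
  unfold Var.chi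
  rw [F.dim, Finset.sum_range]
  exact h1

/-- numerical dimension at least three -/
theorem semiample_of_three (x : F.X.P) (hx : F.X.Nef x) (hn : 0 ≤ F.Q x x x x)
    (hc : F.Q x x x F.X.A ≠ 0) : F.X.Semiample x :=
  (F.multiples x hx hn).semi hc

/-- a nef line bundle with a nonzero section in a positive multiple is semiample -/
theorem semiample_of_effective (x : F.X.P) (hx : F.X.Nef x) (hn : 0 ≤ F.Q x x x x) (m : ℕ)
    (hm : 0 < m) (h : F.X.h 0 (m • x) ≠ 0) : F.X.Semiample x := by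
  by_cases hc : F.Q x x x F.X.A = 0
  swap
  · exact F.semiample_of_three x hx hn hc
  obtain ⟨D, hD⟩ := (F.pic.sect _).1 h
  by_cases hD0 : D = 0
  · refine Var.Semiample.of_nsmul hm ?_
    rw [← hD, hD0, Var.line_zero]
    exact Var.semiample_zero
  · obtain ⟨k, hk, h2⟩ := (F.model x hx hc D hD0 m hm hD).two F.h3
    exact F.fukuda x hx k hk h2

end Four

end Pool.Agent.H76.F4
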