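import Pool.Agent.H76.F4.Zar

namespace Pool.Agent.H76.F4

open scoped BigOperators

namespace Num

variable {r : ℕ} {Pr : Type} {Y : Num r Pr} {f : Vec r → Vec r → ℝ}

namespace Form

variable (h : Y.Form f)

include h

/-- a nonzero movable class has positive degree -/
theorem deg_pos {L : Vec r} (hL : Y.Mov L) (h2 : f L L = 0) (h0 : L ≠ 0) : 0 < f Y.A L := by
  rcases (h.mov_psef h.mov_A (h.psef_of_mov hL)).lt_or_eq with h1 | h1
  · exact h1
  · exact absurd (h.index_eq L h1.symm h2) h0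

/-- **Step 0.** Hodge index theorem for a movable class `L` with `L^2 = 0`. -/
theorem prop {L D : Vec r} (hL : Y.Mov L) (h2 : f L L = 0) (h0 : L ≠ 0) (hD : f L D = 0)
    (hDD : 0 ≤ f D D) : D = (f Y.A D / f Y.A L) • L := by
  have hp := h.deg_pos hL h2 h0
  have h3 : f Y.A (D - (f Y.A D / f Y.A L) • L) = 0 := by
    rw [h.sub', h.mul']
    field_simp
    ring
  have h4 : f (D - (f Y.A D / f Y.A L) • L) (D - (f Y.A D / f Y.A L) • L) = f D D := by
    rw [h.sub, h.sub', h.sub', h.mul, h.mul', h.mul, h.mul', h2, hD, h.symm D L, hD]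
    ring
  have h5 := h.index _ h3
  rw [h4] at h5
  have h6 := h.index_eq _ h3 (by rw [h4]; exact le_antisymm h5 hDD)
  exact sub_eq_zero.1 h6

/-- **Step 2.** A pseudoeffective class orthogonal to `L` is the sum of a multiple of `L` and an
effective class. -/
theorem orth {L Q : Vec r} (hL : Y.Mov L) (h2 : f L L = 0) (h0 : L ≠ 0) (hQ : Y.Psef Q)
    (hLQ : f L Q = 0) : ∃ (t : ℝ) (z : Vec r), Y.Eff z ∧ Q = t • L + z := by
  obtain ⟨y, z, hy, hz', rfl⟩ := h.dec hQ
  have h3 := h.mov_psef hL (h.psef_of_mov hy)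
  have h4 := h.mov_eff hL hz'
  rw [h.add'] at hLQ
  have h5 : f L y = 0 := by linarith
  exact ⟨_, z, hz', by
    rw [← h.prop hL h2 h0 h5 (h.mov_psef hy (h.psef_of_mov hy))]⟩

end Form

end Num

end Pool.Agent.H76.F4
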