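import Pool.Agent.H76.F4.Serre

/-!
The first obstruction at a general point: it is a derivation of the functions, and the second
connecting map is given by the connection. The special points.
-/

namespace Pool.Agent.H76.F4


/-! ## Derivations of the ring of formal power series -/

/-- a derivation which is zero on `X` is zero -/
lemma derivation_zero (D : Derivation ℂ Fun Fun) (hX : D PowerSeries.X = 0) (f : Fun) : D f = 0 := by
  have hp : ∀ n : ℕ, D (PowerSeries.X ^ n) = 0 := by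
    intro n
    rw [Derivation.leibniz_pow, hX, smul_zero, smul_zero]
  have hC : ∀ c : ℂ, D (PowerSeries.C c) = 0 := fun c => by
    have := D.map_algebraMap c
    rwa [PowerSeries.algebraMap_apply] at this
  have hdvd : ∀ n : ℕ, PowerSeries.X ^ n ∣ D f := by
    intro n
    obtain ⟨g, hg⟩ : PowerSeries.X ^ n ∣ f - (PowerSeries.trunc n f : PowerSeries ℂ) := by
      rw [PowerSeries.X_pow_dvd_iff]
      intro m hm
      rw [map_sub, Polynomial.coeff_coe, PowerSeries.coeff_trunc, if_pos hm, sub_self]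
    have hpoly : ∀ p : Polynomial ℂ, D (p : PowerSeries ℂ) = 0 := by
      intro p
      induction p using Polynomial.induction_on' with
      | add p q hp' hq' => rw [Polynomial.coe_add, map_add, hp', hq', add_zero]
      | monomial k c =>
        rw [Polynomial.coe_monomial, PowerSeries.monomial_eq_C_mul_X_pow, Derivation.leibniz, hp, hC,
          smul_zero, smul_zero, add_zero]
    have ht : D (PowerSeries.trunc n f : PowerSeries ℂ) = 0 := hpoly _
    have hf : f = (PowerSeries.trunc n f : PowerSeries ℂ) + PowerSeries.X ^ n * g := by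
      rw [← hg]; ring
    rw [hf, map_add, ht, zero_add, Derivation.leibniz, hp, smul_zero, add_zero, smul_eq_mul]
    exact Dvd.intro _ rfl
  ext n
  obtain ⟨g, hg⟩ := hdvd (n + 1)
  rw [hg, PowerSeries.coeff_X_pow_mul', if_neg (by omega)]
  rfl

/-- a derivation of the ring of formal power series is a multiple of the derivative -/
lemma derivation_eq (D : Derivation ℂ Fun Fun) (f : Fun) :
    D f = PowerSeries.derivative ℂ f * D PowerSeries.X := by
  have h := derivation_zero (D - (D PowerSeries.X) • PowerSeries.derivative ℂ) (by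
    rw [Derivation.sub_apply, Derivation.smul_apply, PowerSeries.derivative_X, smul_eq_mul, mul_one,
      sub_self]) f
  rw [Derivation.sub_apply, Derivation.smul_apply, smul_eq_mul, sub_eq_zero] at h
  rw [h, mul_comm]

namespace Img

variable {I : Img}

theorem one_res (I : Img) (q : ℕ) (m : ℤ) (z : I.Z) (k : ℕ) (y : I.R q (k + 1 + 1) m z) :
    I.one q m z (k + 1) y = I.one q m z k (I.res q (k + 1) m z y) := rfl

theorem one_onto (I : Img) (q : ℕ) (m : ℤ) (z : I.Z) :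
    ∀ n, (∀ j, j < n + 1 → I.S j) → ∀ y, ∃ u, I.one q m z n u = y
  | 0, _ => fun y => ⟨y, rfl⟩
  | n + 1, hS => by
      intro y
      obtain ⟨x, hx⟩ := one_onto I q m z n (fun j hj => hS j (by omega)) y
      obtain ⟨u, hu⟩ := hS (n + 1) (by omega) q m z x
      refine ⟨u, ?_⟩
      rw [one_res, hu, hx]

theorem one_mul (hI : I.Exact) (q : ℕ) (m : ℤ) (z : I.Z) : ∀ k x y,
    I.one q m z k (I.mul q (k + 1) m z x y) =
      I.mul q 1 m z (I.one 0 0 z k x) (I.one q m z k y)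
  | 0, _, _ => rfl
  | k + 1, x, y => by
    rw [one_res, hI.res_mul, one_mul hI q m z k]
    rfl

/-- the connecting map is a derivation on the functions -/
theorem d_fn (hI : I.Exact) (k : ℕ) (z : I.Z) (x y : I.R 0 (k + 1) 0 z) :
    I.d 0 (k + 1) 0 z (I.mul 0 (k + 1) 0 z x y) =
      I.mul 1 1 _ z (I.one 0 0 z k x) (I.d 0 (k + 1) 0 z y) +
        I.mul 1 1 _ z (I.one 0 0 z k y) (I.d 0 (k + 1) 0 z x) :=
  (hI.d_mul 0 k 0 z x y).trans (congrArg _ (hI.cup_fn k z y _))

/-- the connecting map is zero on the classes which are divisible by the equation of `D` -/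
theorem d_mz (hI : I.Exact) (q k : ℕ) (m : ℤ) (z : I.Z) (u : I.R q (k + 1) (m - 1) z) :
    I.d q (k + 1) m z (I.mz q k m z (I.res q k (m - 1) z u)) = 0 :=
  (hI.exact q (k + 1) m z _).2 ⟨I.mz q (k + 1) m z u, hI.comm q k m z u⟩

end Img

namespace Symbol

variable {I : Img} {n : ℕ} {a : ℤ} (A : Symbol I n a)

theorem pr_add (g : I.G) (v w : Fin (A.rV g) → Fun) : A.pr g (v + w) = A.pr g v + A.pr g w := by
  funext j
  unfold Symbol.pr
  rw [Pi.add_apply, ← Finset.sum_add_distrib]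
  exact Finset.sum_congr rfl fun i _ => by rw [Pi.add_apply, add_mul]

theorem pr_smul (g : I.G) (t : Fun) (v : Fin (A.rV g) → Fun) : A.pr g (t • v) = t • A.pr g v := by
  funext j
  unfold Symbol.pr
  rw [Pi.smul_apply, smul_eq_mul, Finset.mul_sum]
  exact Finset.sum_congr rfl fun i _ => by rw [Pi.smul_apply, smul_eq_mul, mul_assoc]

theorem pr_zero (g : I.G) : A.pr g 0 = 0 := by
  have := A.pr_smul g 0 0
  rwa [zero_smul, zero_smul] at this

end Symbol

namespace Bil

variable {p q : ℕ} {b : (Fin p → Fun) → (Fin q → Fun) → Fun} (hb : Bil b)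
include hb

theorem smul_left (t : Fun) (x : Fin p → Fun) (y : Fin q → Fun) : b (t • x) y = t * b x y :=
  hb.2.1 t x y

theorem smul_right (t : Fun) (x : Fin p → Fun) (y : Fin q → Fun) : b x (t • y) = t * b x y :=
  hb.2.2.2 t x y

theorem zero_right (x : Fin p → Fun) : b x 0 = 0 := by
  have := hb.smul_right 0 x 0
  rwa [zero_smul, zero_mul] at this

theorem sum_right {r : ℕ} (x : Fin p → Fun) (v : Fin r → Fin q → Fun) :
    b x (∑ i, v i) = ∑ i, b x (v i) := by
  let B : (Fin q → Fun) →+ Fun :=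
    { toFun := b x, map_zero' := hb.zero_right x, map_add' := hb.2.2.1 x }
  exact map_sum B v Finset.univ

end Bil

namespace Symbol

variable {I : Img} {n : ℕ} {a : ℤ} (A : Symbol I n a)

theorem pr_eq (g : I.G) (v : Fin (A.rV g) → Fun) :
    A.pr g v = ∑ i, v i • A.cb g (I.one 1 a _ n (A.fl g i)) := by
  funext j
  rw [Finset.sum_apply]
  rfl

namespace Gen

variable {A : Symbol I n a}

/-- the connecting map of the functions depends only on the restriction to `D` -/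
theorem d_eq (hG : A.Gen) (hI : I.Exact) (hS : ∀ j, j < n + 1 → I.S j) (g : I.G)
    (x y : I.R 0 (n + 1) 0 (I.pt g)) (h : A.fn g (I.one 0 0 _ n x) = A.fn g (I.one 0 0 _ n y)) :
    I.d 0 (n + 1) 0 _ x = I.d 0 (n + 1) 0 _ y := by
  have hx : I.one 0 0 _ n (x - y) = 0 := by
    rw [(I.one_lin hI 0 0 _ n).sub, (hG.iso_fn g).2.injective h, sub_self]
  obtain ⟨v, hv⟩ := (hI.ker 0 n 0 _ _).1 hx
  obtain ⟨u, rfl⟩ := hS n (Nat.lt_succ_self _) 0 (0 - 1) _ v
  have h1 := I.d_mz hI 0 n 0 _ u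
  rw [hv, (hI.lin_d 0 (n + 1) 0 _).sub, sub_eq_zero] at h1
  exact h1

theorem dd_eq (hG : A.Gen) (hI : I.Exact) (hS : ∀ j, j < n + 1 → I.S j) (g : I.G)
    (x y : I.R 1 (n + 1) a (I.pt g)) (h : A.cb g (I.one 1 a _ n x) = A.cb g (I.one 1 a _ n y)) :
    A.dd g x = A.dd g y := by
  have hx : I.one 1 a _ n (x - y) = 0 := by
    rw [(I.one_lin hI 1 a _ n).sub, (hG.iso_cb g).2.injective h, sub_self]
  obtain ⟨v, hv⟩ := (hI.ker 1 n a _ _).1 hx
  obtain ⟨u, rfl⟩ := hS n (Nat.lt_succ_self _) 1 (a - 1) _ v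
  have h1 := hG.dd_mz g u
  rw [hv, (hG.lin_dd g).sub, sub_eq_zero] at h1
  exact h1

theorem lift (hG : A.Gen) (hS : ∀ j, j < n + 1 → I.S j) (g : I.G) (f : Fun) :
    ∃ x, A.fn g (I.one 0 0 _ n x) = f := by
  obtain ⟨y, rfl⟩ := (hG.iso_fn g).2.surjective f
  obtain ⟨u, hu⟩ := I.one_onto 0 0 (I.pt g) n hS y
  exact ⟨u, by rw [hu]⟩

theorem cc_mul' (hG : A.Gen) (g : I.G) (x y) :
    A.cc g (I.mul 1 1 _ _ x y) = A.fn g x • A.cc g y := funext fun j => hG.cc_mul g x y j

theorem cb_mul' (hG : A.Gen) (g : I.G) (x y) :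
    A.cb g (I.mul 1 1 a _ x y) = A.fn g x • A.cb g y := funext fun j => hG.cb_mul g x y j

/-- the symbol -/
theorem symbol (hG : A.Gen) (hI : I.Exact) (hS : ∀ j, j < n + 1 → I.S j) (g : I.G)
    (τ : I.R 0 (n + 1) 0 (I.pt g)) (hτ : A.fn g (I.one 0 0 _ n τ) = PowerSeries.X)
    (x : I.R 0 (n + 1) 0 (I.pt g)) :
    A.cc g (I.d 0 (n + 1) 0 _ x) =
      PowerSeries.derivative ℂ (A.fn g (I.one 0 0 _ n x)) • A.cc g (I.d 0 (n + 1) 0 _ τ) := by
  choose s hs using lift hG hS g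
  have hf := (hG.iso_fn g).1
  have hc : Lin (A.cc g) := (hG.iso_cc g).1
  have hd := hI.lin_d 0 (n + 1) 0 (I.pt g)
  have ho := I.one_lin hI 0 0 (I.pt g) n
  funext j
  let D : Fun →ₗ[ℂ] Fun :=
    { toFun := fun f => A.cc g (I.d 0 (n + 1) 0 _ (s f)) j
      map_add' := fun f f' => by
        rw [hG.d_eq hI hS g (s (f + f')) (s f + s f') (by rw [ho.add, hf.add, hs, hs, hs]), hd.add,
          hc.add]
        rfl
      map_smul' := fun r f => by
        rw [RingHom.id_apply, hG.d_eq hI hS g (s (r • f)) (r • s f)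
          (by rw [ho.smul, hf.smul, hs, hs]), hd.smul, hc.smul]
        rfl }
  let δ : Derivation ℂ Fun Fun := Derivation.mk' D fun f f' => by
    change A.cc g (I.d 0 (n + 1) 0 _ (s (f * f'))) j =
      f * A.cc g (I.d 0 (n + 1) 0 _ (s f')) j + f' * A.cc g (I.d 0 (n + 1) 0 _ (s f)) j
    rw [hG.d_eq hI hS g (s (f * f')) (I.mul 0 (n + 1) 0 _ (s f) (s f'))
      (by rw [I.one_mul hI, hG.fn_mul, hs, hs, hs]), I.d_fn hI, hc.add, hG.cc_mul', hG.cc_mul', hs, hs]
    rfl
  have h1 := derivation_eq δ (A.fn g (I.one 0 0 _ n x))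
  change A.cc g (I.d 0 (n + 1) 0 _ (s _)) j = _ * A.cc g (I.d 0 (n + 1) 0 _ (s _)) j at h1
  rw [hG.d_eq hI hS g (s (A.fn g (I.one 0 0 _ n x))) x (hs _),
    hG.d_eq hI hS g (s PowerSeries.X) τ (by rw [hs, hτ])] at h1
  exact h1

theorem connect (hG : A.Gen) (hI : I.Exact) (hS : ∀ j, j < n + 1 → I.S j) (g : I.G)
    (τ : I.R 0 (n + 1) 0 (I.pt g)) (hτ : A.fn g (I.one 0 0 _ n τ) = PowerSeries.X)
    (v : Fin (A.rV g) → Fun) (u : I.R 1 (n + 1) a (I.pt g))
    (hu : A.cb g (I.one 1 a _ n u) = A.pr g v) :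
    A.dd g u = A.pair g (A.cc g (I.d 0 (n + 1) 0 _ τ)) (A.pr g (der v)) := by
  choose s hs using lift hG hS g
  have hb : Lin (A.cb g) := (hG.iso_cb g).1
  have h1 : A.cb g (I.one 1 a _ n (∑ i, I.mul 1 (n + 1) a _ (s (v i)) (A.fl g i))) = A.pr g v := by
    rw [(I.one_lin hI 1 a _ n).sum, hb.sum, A.pr_eq]
    refine Finset.sum_congr rfl fun i _ => ?_
    rw [I.one_mul hI, hG.cb_mul', hs]
  rw [hG.dd_eq hI hS g u _ (hu.trans h1.symm), (hG.lin_dd g).sum, A.pr_eq, (hG.bil g).sum_right]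
  refine Finset.sum_congr rfl fun i _ => ?_
  rw [hG.dd_mul, hG.dd_fl, mul_zero, zero_add, hG.symbol hI hS g τ hτ, hs, (hG.bil g).smul_left,
    (hG.bil g).smul_right]
  rfl

theorem functions (hG : A.Gen) (hI : I.Exact) (hS : ∀ j, j < n + 1 → I.S j) (g : I.G)
    (τ : I.R 0 (n + 1) 0 (I.pt g)) (hτ : A.fn g (I.one 0 0 _ n τ) = PowerSeries.X)
    (h0 : ∀ j, A.cc g (I.d 0 (n + 1) 0 _ τ) j = 0) : ∀ f, I.Ext 0 (n + 1) 0 (I.pt g) f := fun f =>
  (hI.exact _ _ _ _ f).1 ((hG.iso_cc g).2.injective (by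
    have hc : Lin (A.cc g) := (hG.iso_cc g).1
    rw [hG.symbol hI hS g τ hτ, funext h0, hc.zero]
    exact smul_zero _))

end Gen

namespace Spec

variable {A : Symbol I n a}

theorem rho_one (hP : A.Spec) (z : A.Sp) (β : A.Br z) : ∀ (j : ℕ) (u : I.R 1 (j + 1) a (A.sp z)),
    I.one 1 a _ j (A.rho z β (j + 1) u) = A.rho z β 1 (I.one 1 a _ j u)
  | 0, _ => rfl
  | j + 1, u => by
    rw [I.one_res, I.one_res, ← hP.rho_res, rho_one hP z β j]

theorem bdd (hP : A.Spec) (hG : A.Gen) (hS : ∀ j, j < n + 1 → I.S j)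
    (c : ∀ g, Fin (A.rC g) → Fun)
    (hc : ∀ g v u, A.cb g (I.one 1 a _ n u) = A.pr g v →
      A.dd g u = A.pair g (c g) (A.pr g (der v))) : A.Bdd c := by
  have hder0 : ∀ g, der (0 : Fin (A.rV g) → Fun) = 0 := fun g => funext fun i => by
    simp [der]
  intro z β e he
  obtain ⟨e', he', h1⟩ := hP.onto z β e he
  obtain ⟨u, hu, hu'⟩ := hP.cls z β e' he'
  obtain ⟨w, hw⟩ := I.one_onto 1 a (A.sp z) n hS u
  have h2 := hc (A.near z β) e' (A.rho z β (n + 1) w) (by rw [hP.rho_one, hw, hu])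
  refine ⟨A.rs z β (A.om z w), hP.residue z β _ fun β' h => ?_, ?_⟩
  · rw [hP.rs_om, hc (A.near z β') 0 _ (by rw [hP.rho_one, hw, pr_zero]; exact funext (hu' β' h)),
      hder0, pr_zero, (hG.bil _).zero_right]
  · unfold Symbol.lam
    rw [hP.rs_om, h2, ← h1, pr_smul, (hG.bil _).smul_right]

end Spec

end Symbol

end Pool.Agent.H76.F4
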