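import Pool.Agent.H76.F4.Var

/-!
# MP_5ee2d0_ag: the divisorial Zariski decomposition
-/

namespace Pool.Agent.H76.F4

open scoped BigOperators

namespace Num

variable {r : ℕ} {Pr : Type} (Y : Num r Pr) (f : Vec r → Vec r → ℝ)

/-- Prime divisors, the ample class and the intersection number `f x y = x.y.A^(n-2)`. -/
structure Pre : Prop where
  ne : Nonempty Pr
  add : ∀ x y z, f (x + y) z = f x z + f y z
  mul : ∀ (t : ℝ) x y, f (t • x) y = t * f x y
  symm : ∀ x y, f x y = f y x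
  /-- numerically trivial classes are zero -/
  nd : ∀ x, (∀ y, f x y = 0) → x = 0
  cl_ne : ∀ F, Y.cl F ≠ 0
  /-- different prime divisors meet in codimension two or not at all -/
  cl_cl : ∀ F F', F ≠ F' → 0 ≤ f (Y.cl F) (Y.cl F')
  /-- if `t` is small then `A + t x` is ample and so it is a positive combination of very ample classes -/
  amp : ∀ x, ∃ t : ℝ, 0 < t ∧ ∀ F, Y.Free F (Y.A + t • x)

/-- In addition the Hodge index theorem. -/
structure Form : Prop extends Y.Pre f where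
  index : ∀ x, f Y.A x = 0 → f x x ≤ 0

end Num

/-- Divisors on `X`; `H^1(X, O_X) = 0`. -/
structure Var.Divisors {r : ℕ} (X : Var r) (f : Vec r → Vec r → ℝ) : Prop extends X.Pic where
  form : X.num.Form f
  /-- Kleiman: if `x` is nef and `t > 0` then `x + t A` is ample -/
  mov : ∀ x, X.Nef x → X.num.Mov (X.rl x)

namespace Num

variable {r : ℕ} {Pr : Type} {Y : Num r Pr} {f : Vec r → Vec r → ℝ}

namespace Pre

variable (h : Y.Pre f)

include h

theorem add' (x y z : Vec r) : f x (y + z) = f x y + f x z := by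
  rw [h.symm, h.add, h.symm y, h.symm z]

theorem mul' (t : ℝ) (x y : Vec r) : f x (t • y) = t * f x y := by
  rw [h.symm, h.mul, h.symm]

theorem zero (x : Vec r) : f 0 x = 0 := by
  have := h.mul 0 0 x
  simpa using this

theorem zero' (x : Vec r) : f x 0 = 0 := by
  rw [h.symm, h.zero]

theorem neg (x y : Vec r) : f (-x) y = -f x y := by
  have := h.mul (-1) x y
  simpa using this

theorem neg' (x y : Vec r) : f x (-y) = -f x y := by
  rw [h.symm, h.neg, h.symm]

theorem sub (x y z : Vec r) : f (x - y) z = f x z - f y z := by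
  rw [sub_eq_add_neg, h.add, h.neg, sub_eq_add_neg]

theorem sub' (x y z : Vec r) : f x (y - z) = f x y - f x z := by
  rw [sub_eq_add_neg, h.add', h.neg', sub_eq_add_neg]

theorem sum {ι : Type} (s : Finset ι) (x : ι → Vec r) (y : Vec r) :
    f (∑ i ∈ s, x i) y = ∑ i ∈ s, f (x i) y := by
  classical
  induction s using Finset.induction_on with
  | empty => simp [h.zero]
  | insert i s hi ih => rw [Finset.sum_insert hi, Finset.sum_insert hi, h.add, ih]

theorem sum' {ι : Type} (s : Finset ι) (x : Vec r) (y : ι → Vec r) :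
    f x (∑ i ∈ s, y i) = ∑ i ∈ s, f x (y i) := by
  rw [h.symm, h.sum]
  exact Finset.sum_congr rfl fun i _ => h.symm _ _

end Pre

/-- the class of a divisor with real coefficients -/
noncomputable def cls (Y : Num r Pr) : (Pr →₀ ℝ) →ₗ[ℝ] Vec r := Finsupp.linearCombination ℝ Y.cl

theorem cls_single (F : Pr) (t : ℝ) : Y.cls (Finsupp.single F t) = t • Y.cl F :=
  Finsupp.linearCombination_single ..

theorem cls_eq (D : Pr →₀ ℝ) : Y.cls D = ∑ F ∈ D.support, D F • Y.cl F := rfl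

theorem free_iff {F : Pr} {x : Vec r} :
    Y.Free F x ↔ ∃ D : Pr →₀ ℝ, 0 ≤ D ∧ D F = 0 ∧ Y.cls D = x := by
  classical
  constructor
  · rintro ⟨k, G, u, hu, hG, rfl⟩
    refine ⟨∑ i, Finsupp.single (G i) (u i), ?_, ?_, ?_⟩
    · exact Finset.sum_nonneg fun i _ => Finsupp.single_nonneg.2 (hu i)
    · rw [Finsupp.finsetSum_apply]
      exact Finset.sum_eq_zero fun i _ => Finsupp.single_eq_of_ne (hG i).symm
    · rw [map_sum]
      exact Finset.sum_congr rfl fun i _ => cls_single _ _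
  · rintro ⟨D, h0, hF, rfl⟩
    let e := D.support.equivFin.symm
    refine ⟨D.support.card, fun i => (e i).1, fun i => D (e i).1, fun i => h0 _, fun i hi => ?_, ?_⟩
    · have h1 := (e i).2
      have h2 : (e i).1 = F := hi
      rw [Finsupp.mem_support_iff, h2] at h1
      exact h1 hF
    · rw [cls_eq, ← Finset.sum_coe_sort]
      exact (Equiv.sum_comp e (fun F : D.support => D F.1 • Y.cl F.1)).symm

theorem eff_iff {x : Vec r} : Y.Eff x ↔ ∃ D : Pr →₀ ℝ, 0 ≤ D ∧ Y.cls D = x := by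
  classical
  constructor
  · rintro ⟨k, G, u, hu, rfl⟩
    refine ⟨∑ i, Finsupp.single (G i) (u i), ?_, ?_⟩
    · exact Finset.sum_nonneg fun i _ => Finsupp.single_nonneg.2 (hu i)
    · rw [map_sum]
      exact Finset.sum_congr rfl fun i _ => cls_single _ _
  · rintro ⟨D, h0, rfl⟩
    let e := D.support.equivFin.symm
    refine ⟨D.support.card, fun i => (e i).1, fun i => D (e i).1, fun i => h0 _, ?_⟩
    rw [cls_eq, ← Finset.sum_coe_sort]
    exact (Equiv.sum_comp e (fun F : D.support => D F.1 • Y.cl F.1)).symm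

theorem Free.eff {F : Pr} {x : Vec r} (h : Y.Free F x) : Y.Eff x := by
  obtain ⟨D, h0, _, h1⟩ := free_iff.1 h
  exact eff_iff.2 ⟨D, h0, h1⟩

theorem Free.add {F : Pr} {x y : Vec r} (hx : Y.Free F x) (hy : Y.Free F y) : Y.Free F (x + y) := by
  obtain ⟨D, h0, h1, h2⟩ := free_iff.1 hx
  obtain ⟨D', h0', h1', h2'⟩ := free_iff.1 hy
  exact free_iff.2 ⟨D + D', add_nonneg h0 h0', by rw [Finsupp.add_apply, h1, h1', add_zero],
    by rw [map_add, h2, h2']⟩

theorem Free.smul {F : Pr} {x : Vec r} (hx : Y.Free F x) {t : ℝ} (ht : 0 ≤ t) :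
    Y.Free F (t • x) := by
  obtain ⟨D, h0, h1, h2⟩ := free_iff.1 hx
  exact free_iff.2 ⟨t • D, smul_nonneg ht h0, by rw [Finsupp.smul_apply, h1, smul_zero],
    by rw [map_smul, h2]⟩

theorem Free.zero (F : Pr) : Y.Free F 0 :=
  free_iff.2 ⟨0, le_rfl, rfl, map_zero _⟩

theorem Free.sum {F : Pr} {ι : Type} (s : Finset ι) (x : ι → Vec r)
    (hx : ∀ i ∈ s, Y.Free F (x i)) : Y.Free F (∑ i ∈ s, x i) := by
  classical
  induction s using Finset.induction_on with
  | empty => simpa using Free.zero F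
  | insert i s hi ih =>
    rw [Finset.sum_insert hi]
    exact (hx i (Finset.mem_insert_self _ _)).add
      (ih fun j hj => hx j (Finset.mem_insert_of_mem hj))

theorem Eff.smul {x : Vec r} (hx : Y.Eff x) {t : ℝ} (ht : 0 ≤ t) : Y.Eff (t • x) := by
  obtain ⟨D, h0, h2⟩ := eff_iff.1 hx
  exact eff_iff.2 ⟨t • D, smul_nonneg ht h0, by rw [map_smul, h2]⟩

theorem Eff.add {x y : Vec r} (hx : Y.Eff x) (hy : Y.Eff y) : Y.Eff (x + y) := by
  obtain ⟨D, h0, h2⟩ := eff_iff.1 hx
  obtain ⟨D', h0', h2'⟩ := eff_iff.1 hy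
  exact eff_iff.2 ⟨D + D', add_nonneg h0 h0', by rw [map_add, h2, h2']⟩

theorem Eff.zero : Y.Eff 0 := eff_iff.2 ⟨0, le_rfl, map_zero _⟩

theorem Eff.cl (F : Pr) : Y.Eff (Y.cl F) :=
  eff_iff.2 ⟨Finsupp.single F 1, Finsupp.single_nonneg.2 zero_le_one, by
    rw [cls_single, one_smul]⟩

theorem Eff.sum {ι : Type} (s : Finset ι) (x : ι → Vec r) (hx : ∀ i ∈ s, Y.Eff (x i)) :
    Y.Eff (∑ i ∈ s, x i) := by
  classical
  induction s using Finset.induction_on with
  | empty => simpa using Eff.zero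
  | insert i s hi ih =>
    rw [Finset.sum_insert hi]
    exact (hx i (Finset.mem_insert_self _ _)).add
      (ih fun j hj => hx j (Finset.mem_insert_of_mem hj))

theorem nonneg_of_add {a b : ℝ} (h : ∀ t : ℝ, 0 < t → 0 ≤ a + t * b) : 0 ≤ a := by
  by_contra ha
  push Not at ha
  have hb := abs_nonneg b
  have ht : 0 < -a / (|b| + 1) := div_pos (by linarith) (by linarith)
  have h1 := h _ ht
  have h2 : -a / (|b| + 1) * b ≤ -a / (|b| + 1) * |b| :=
    mul_le_mul_of_nonneg_left (le_abs_self b) ht.le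
  have h3 : -a / (|b| + 1) * (|b| + 1) = -a := div_mul_cancel₀ _ (by linarith)
  have h4 : -a / (|b| + 1) * (|b| + 1) = -a / (|b| + 1) * |b| + -a / (|b| + 1) := by ring
  linarith

/-- finitely many positive numbers have a positive lower bound -/
theorem exists_pos_le {ι : Type} (s : Finset ι) (t : ι → ℝ) (ht : ∀ i ∈ s, 0 < t i) :
    ∃ τ : ℝ, 0 < τ ∧ ∀ i ∈ s, τ ≤ t i := by
  classical
  induction s using Finset.induction_on with
  | empty => exact ⟨1, one_pos, fun i hi => by simp at hi⟩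
  | insert i s hi ih =>
    obtain ⟨τ, h1, h2⟩ := ih fun j hj => ht j (Finset.mem_insert_of_mem hj)
    refine ⟨min τ (t i), lt_min h1 (ht i (Finset.mem_insert_self _ _)), fun j hj => ?_⟩
    rcases Finset.mem_insert.1 hj with rfl | hj
    · exact min_le_right _ _
    · exact (min_le_left _ _).trans (h2 j hj)

namespace Pre

section

variable (h : Y.Pre f)

include h

theorem free_cl {F : Pr} {x : Vec r} (hx : Y.Free F x) : 0 ≤ f x (Y.cl F) := by
  obtain ⟨k, G, u, hu, hG, rfl⟩ := hx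
  rw [h.sum]
  exact Finset.sum_nonneg fun i _ => by
    rw [h.mul]
    exact mul_nonneg (hu i) (h.cl_cl _ _ (hG i))

theorem free_A (F : Pr) : Y.Free F Y.A := by
  obtain ⟨s, hs, h1⟩ := h.amp 0
  have := h1 F
  rwa [smul_zero, add_zero] at this

/-- a prime divisor has positive degree -/
theorem pos (F : Pr) : 0 < f Y.A (Y.cl F) := by
  refine lt_of_le_of_ne (h.free_cl (h.free_A F)) fun h0 => ?_
  have h1 : ∀ v, 0 ≤ f v (Y.cl F) := fun v => by
    obtain ⟨t, ht, h2⟩ := h.amp v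
    have h3 := h.free_cl (h2 F)
    rw [h.add, h.mul, ← h0, zero_add] at h3
    exact nonneg_of_mul_nonneg_right h3 ht
  refine h.cl_ne F (h.nd _ fun v => ?_)
  rw [h.symm]
  have h2 := h1 (-v)
  rw [h.neg] at h2
  linarith [h1 v]

/-- a movable class and a prime divisor -/
theorem mov_cl {x : Vec r} (hx : Y.Mov x) (F : Pr) : 0 ≤ f x (Y.cl F) := by
  refine nonneg_of_add (b := f Y.A (Y.cl F)) fun t ht => ?_
  rw [← h.mul, ← h.add]
  exact h.free_cl (hx t ht F)

theorem mov_eff {x y : Vec r} (hx : Y.Mov x) (hy : Y.Eff y) : 0 ≤ f x y := by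
  obtain ⟨k, G, u, hu, rfl⟩ := hy
  rw [h.sum']
  exact Finset.sum_nonneg fun i _ => by
    rw [h.mul']
    exact mul_nonneg (hu i) (h.mov_cl hx _)

theorem psef_of_mov {x : Vec r} (hx : Y.Mov x) : Y.Psef x := fun t ht => by
  obtain ⟨F⟩ := h.ne
  exact (hx t ht F).eff

theorem mov_psef {x y : Vec r} (hx : Y.Mov x) (hy : Y.Psef y) : 0 ≤ f x y := by
  refine nonneg_of_add (b := f x Y.A) fun t ht => ?_
  rw [← h.mul', ← h.add']
  exact h.mov_eff hx (hy t ht)

theorem mov_A : Y.Mov Y.A := fun t ht F => by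
  have h1 := (h.free_A F).smul (t := 1 + t) (by linarith)
  rwa [add_smul, one_smul] at h1

theorem A_A : 0 < f Y.A Y.A := by
  obtain ⟨F⟩ := h.ne
  obtain ⟨t, ht, h1⟩ := h.amp (-Y.cl F)
  have h2 := h.mov_eff h.mov_A (h1 F).eff
  rw [h.add', h.mul', h.neg'] at h2
  have h3 := mul_pos ht (h.pos F)
  linarith

/-- a neighbourhood of the ample class -/
theorem ball : ∃ ρ : ℝ, 0 < ρ ∧ ∀ w : Vec r, (∀ i, |w i| ≤ ρ) → ∀ F, Y.Free F (Y.A + w) := by
  classical
  choose s hs h1 using h.amp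
  have seg : ∀ (v : Vec r) (c : ℝ), 0 ≤ c → c ≤ s v → ∀ F, Y.Free F (Y.A + c • v) := by
    intro v c hc hcs F
    have h2 := ((h.free_A F).smul (t := 1 - c / s v) (by
      rw [sub_nonneg, div_le_one (hs v)]; exact hcs)).add ((h1 v F).smul (t := c / s v)
        (div_nonneg hc (hs v).le))
    have h3 : (1 - c / s v) • Y.A + (c / s v) • (Y.A + s v • v) = Y.A + c • v := by
      rw [smul_add, smul_smul, div_mul_cancel₀ _ (hs v).ne', sub_smul, one_smul]
      abel
    rwa [h3] at h2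
  obtain ⟨τ, hτ, h2⟩ := exists_pos_le (Finset.univ : Finset (Fin r))
    (fun i => min (s (Pi.single i 1)) (s (Pi.single i (-1)))) fun i _ => lt_min (hs _) (hs _)
  have seg' : ∀ (i : Fin r) (c : ℝ), |c| ≤ τ → ∀ F, Y.Free F (Y.A + Pi.single i c) := by
    intro i c hc F
    rcases le_total 0 c with h3 | h3
    · have h4 := seg (Pi.single i 1) c h3 ((le_abs_self c).trans (hc.trans
        ((h2 i (Finset.mem_univ _)).trans (min_le_left _ _)))) F
      rwa [← Pi.single_smul, smul_eq_mul, mul_one] at h4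
    · have h4 := seg (Pi.single i (-1)) (-c) (neg_nonneg.2 h3) ((neg_le_abs c).trans (hc.trans
        ((h2 i (Finset.mem_univ _)).trans (min_le_right _ _)))) F
      rwa [← Pi.single_smul, smul_eq_mul, neg_mul_neg, mul_one] at h4
  have hr : (0 : ℝ) < (r : ℝ) + 1 := by positivity
  refine ⟨τ / (r + 1), div_pos hτ hr, fun w hw F => ?_⟩
  have h3 : Y.Free F ((1 / ((r : ℝ) + 1)) • (Y.A + ∑ i, (Y.A + Pi.single i ((r + 1) * w i)))) := by
    refine Free.smul ((h.free_A F).add (Free.sum _ _ fun i _ => seg' i _ ?_ F)) (by positivity)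
    rw [abs_mul, abs_of_pos hr]
    have := hw i
    rw [le_div_iff₀ hr] at this
    linarith
  have h4 : (1 / ((r : ℝ) + 1)) • (Y.A + ∑ i, (Y.A + Pi.single i ((r + 1) * w i))) = Y.A + w := by
    funext j
    simp only [Pi.smul_apply, Pi.add_apply, Finset.sum_apply, Finset.sum_add_distrib,
      Finset.sum_const, Finset.card_univ, Fintype.card_fin, nsmul_eq_mul, smul_eq_mul, Pi.mul_apply,
      Pi.natCast_apply]
    rw [Finset.sum_pi_single j (fun i => ((r : ℝ) + 1) * w i) Finset.univ]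
    simp only [Finset.mem_univ, if_true]
    field_simp
    ring
  rwa [h4] at h3

theorem ball' : ∃ ρ : ℝ, 0 < ρ ∧ ∀ t : ℝ, 0 < t → ∀ w : Vec r, (∀ i, |w i| ≤ t * ρ) →
    ∀ F, Y.Free F (t • Y.A + w) := by
  obtain ⟨ρ, hρ, h1⟩ := h.ball
  refine ⟨ρ, hρ, fun t ht w hw F => ?_⟩
  have h2 := (h1 (t⁻¹ • w) (fun i => by
    rw [Pi.smul_apply, smul_eq_mul, abs_mul, abs_of_pos (inv_pos.2 ht), inv_mul_le_iff₀ ht]
    exact hw i) F).smul ht.le
  rwa [smul_add, smul_smul, mul_inv_cancel₀ ht.ne', one_smul] at h2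

end

section Zariski

variable (h : Y.Pre f) {x : Vec r}

/-- all effective divisors with the class `x + t A` contain `a F` -/
def Low (Y : Num r Pr) (x : Vec r) (t : ℝ) (F : Pr) (a : ℝ) : Prop :=
  ∀ D : Pr →₀ ℝ, 0 ≤ D → Y.cls D = x + t • Y.A → a ≤ D F

include h

theorem Low.mono {t t' : ℝ} (htt : t' ≤ t) {F : Pr} {a : ℝ} (hl : Low Y x t F a) :
    Low Y x t' F a := by
  intro D h0 h1
  obtain ⟨D', h0', h2, h3⟩ := free_iff.1 ((h.free_A F).smul (t := t - t') (by linarith))
  have h4 := hl (D + D') (add_nonneg h0 h0') (by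
    rw [map_add, h1, h3, add_assoc, ← add_smul]
    congr 2
    ring)
  rwa [Finsupp.add_apply, h2, add_zero] at h4

theorem Low.le (hx : Y.Psef x) {t : ℝ} (ht : 0 < t) {F : Pr} {a : ℝ} (hl : Low Y x t F a) :
    a ≤ (f Y.A x + f Y.A Y.A) / f Y.A (Y.cl F) := by
  have ht' : 0 < min t 1 := lt_min ht one_pos
  obtain ⟨D, h0, h1⟩ := eff_iff.1 (hx _ ht')
  have h2 := Low.mono h (min_le_left t 1) hl D h0 h1
  rw [le_div_iff₀ (h.pos F)]
  have h3 : f Y.A (Y.cls D) = ∑ G ∈ D.support, D G * f Y.A (Y.cl G) := by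
    rw [cls_eq, h.sum']
    exact Finset.sum_congr rfl fun G _ => h.mul' _ _ _
  have h4 : D F * f Y.A (Y.cl F) ≤ f Y.A (Y.cls D) := by
    rw [h3]
    by_cases hF : F ∈ D.support
    · exact Finset.single_le_sum (f := fun G => D G * f Y.A (Y.cl G))
        (fun G _ => mul_nonneg (h0 G) (h.pos G).le) hF
    · rw [Finsupp.notMem_support_iff.1 hF, zero_mul]
      exact Finset.sum_nonneg fun G _ => mul_nonneg (h0 G) (h.pos G).le
  have h5 : f Y.A (Y.cls D) ≤ f Y.A x + f Y.A Y.A := by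
    rw [h1, h.add', h.mul']
    have := h.A_A
    have h6 : min t 1 ≤ 1 := min_le_right _ _
    nlinarith
  exact (mul_le_mul_of_nonneg_right h2 (h.pos F).le).trans (h4.trans h5)

/-- **Divisorial Zariski decomposition** (Boucksom, Nakayama). -/
theorem dec (hx : Y.Psef x) : ∃ y z, Y.Mov y ∧ Y.Eff z ∧ x = y + z := by
  classical
  let S : Pr → Set ℝ := fun F => {a | ∃ t : ℝ, 0 < t ∧ Low Y x t F a}
  have hne : ∀ F, (S F).Nonempty := fun F => ⟨0, 1, one_pos, fun D h0 _ => h0 F⟩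
  have hbd : ∀ F, BddAbove (S F) := fun F => ⟨_, by
    rintro a ⟨t, ht, hl⟩
    exact Low.le h hx ht hl⟩
  let s : Pr → ℝ := fun F => sSup (S F)
  have hs0 : ∀ F, 0 ≤ s F := fun F => le_csSup (hbd F) ⟨1, one_pos, fun D h0 _ => h0 F⟩
  have hlow : ∀ F b, b < s F → ∃ t : ℝ, 0 < t ∧ Low Y x t F b := by
    intro F b hb
    obtain ⟨a, ⟨t, ht, hl⟩, hab⟩ := exists_lt_of_lt_csSup (hne F) hb
    exact ⟨t, ht, fun D h0 h1 => hab.le.trans (hl D h0 h1)⟩
  have hup : ∀ F b, s F < b → ∀ t : ℝ, 0 < t → ∃ D : Pr →₀ ℝ, 0 ≤ D ∧ Y.cls D = x + t • Y.A ∧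
      D F < b := by
    intro F b hb t ht
    by_contra hcon
    push Not at hcon
    exact absurd (le_csSup (hbd F) ⟨t, ht, fun D h0 h1 => hcon D h0 h1⟩) (not_le.2 hb)
  -- the classes of the prime divisors in the negative part are linearly independent
  have hli : LinearIndepOn ℝ Y.cl {F | 0 < s F} := by
    rw [linearIndepOn_iff]
    intro g hg hg0
    by_contra hgne
    have hsupp : ∀ F, g F ≠ 0 → 0 < s F := fun F hF =>
      (Finsupp.mem_supported ℝ g).1 hg (Finsupp.mem_support_iff.2 hF)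
    have hdeg : ∑ F ∈ g.support, g F * f Y.A (Y.cl F) = 0 := by
      have h1 : f Y.A (Y.cls g) = 0 := by
        have h2 : Y.cls g = 0 := hg0
        rw [h2, h.zero']
      rw [cls_eq, h.sum'] at h1
      rw [← h1]
      exact Finset.sum_congr rfl fun G _ => (h.mul' _ _ _).symm
    obtain ⟨F₁, hF₁⟩ : ∃ F, 0 < g F := by
      by_contra hcon
      push Not at hcon
      have h1 : ∀ F ∈ g.support, g F * f Y.A (Y.cl F) < 0 := fun F hF =>
        mul_neg_of_neg_of_pos (lt_of_le_of_ne (hcon F) (Finsupp.mem_support_iff.1 hF)) (h.pos F)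
      have h2 : g.support.Nonempty := Finsupp.support_nonempty_iff.2 hgne
      exact absurd hdeg (Finset.sum_neg h1 h2).ne
    have h1 : ∀ F ∈ g.support, ∃ t : ℝ, 0 < t ∧ Low Y x t F (s F / 2) := fun F hF =>
      hlow F _ (by have := hsupp F (Finsupp.mem_support_iff.1 hF); linarith)
    choose! t ht hl using h1
    obtain ⟨τ, hτ, h2⟩ := exists_pos_le g.support t ht
    obtain ⟨D, h0, h3⟩ := eff_iff.1 (hx τ hτ)
    obtain ⟨F₀, hF₀, hmin⟩ := Finset.exists_min_image (g.support.filter fun F => 0 < g F)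
      (fun F => D F / g F) ⟨F₁, Finset.mem_filter.2 ⟨Finsupp.mem_support_iff.2 hF₁.ne', hF₁⟩⟩
    obtain ⟨hF₀s, hF₀p⟩ := Finset.mem_filter.1 hF₀
    have h4 := Low.mono h (h2 F₀ hF₀s) (hl F₀ hF₀s) (D - (D F₀ / g F₀) • g) (by
        intro F
        rw [Finsupp.sub_apply, Finsupp.smul_apply, smul_eq_mul, Finsupp.coe_zero, Pi.zero_apply,
          sub_nonneg]
        by_cases hF : 0 < g F
        · have h5 := hmin F (Finset.mem_filter.2 ⟨Finsupp.mem_support_iff.2 hF.ne', hF⟩)
          rwa [le_div_iff₀ hF] at h5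
        · have h6 : D F₀ / g F₀ * g F ≤ 0 :=
            mul_nonpos_of_nonneg_of_nonpos (div_nonneg (h0 F₀) hF₀p.le) (not_lt.1 hF)
          exact h6.trans (h0 F)) (by
        have h5 : Y.cls g = 0 := hg0
        rw [map_sub, map_smul, h5, smul_zero, sub_zero, h3])
    rw [Finsupp.sub_apply, Finsupp.smul_apply, smul_eq_mul, div_mul_cancel₀ _ hF₀p.ne',
      sub_self] at h4
    have h5 := hsupp F₀ hF₀p.ne'
    linarith
  have hfin : {F | 0 < s F}.Finite :=
    LinearIndependent.finite_of_isNoetherian hli.linearIndependent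
  have hfin' : (Function.support s).Finite := hfin.subset fun F hF =>
    lt_of_le_of_ne (hs0 F) (Ne.symm hF)
  -- the negative part
  let N : Pr →₀ ℝ := Finsupp.ofSupportFinite s hfin'
  have hN : ∀ F, N F = s F := fun F => rfl
  refine ⟨x - Y.cls N, Y.cls N, fun t ht Γ => ?_, eff_iff.2 ⟨N, fun F => hs0 F, rfl⟩,
    (sub_add_cancel _ _).symm⟩
  obtain ⟨ρ, hρ, hball⟩ := h.ball'
  set M : ℝ := 1 + ∑ i, (2 * |Y.cl Γ i| + ∑ F ∈ N.support, |Y.cl F i|) with hM
  have hM0 : ∀ i, 2 * |Y.cl Γ i| + ∑ F ∈ N.support, |Y.cl F i| ≤ M := fun i => by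
    have h1 := Finset.single_le_sum (f := fun i => 2 * |Y.cl Γ i| + ∑ F ∈ N.support, |Y.cl F i|)
      (fun i _ => by positivity) (Finset.mem_univ i)
    rw [hM]
    linarith
  have hM1 : 0 < M := by
    rw [hM]
    positivity
  set δ : ℝ := t / 2 * ρ / M with hδ
  have hδ0 : 0 < δ := by
    rw [hδ]
    positivity
  -- a common `t₀`
  have h1 : ∀ F ∈ N.support, ∃ t : ℝ, 0 < t ∧ Low Y x t F (s F - δ) := fun F _ =>
    hlow F _ (by linarith)
  choose! t' ht' hl using h1
  obtain ⟨τ, hτ, h2⟩ := exists_pos_le N.support t' ht'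
  set t₀ := min τ (t / 2) with ht₀
  have ht₀0 : 0 < t₀ := lt_min hτ (by linarith)
  have ht₀1 : t₀ ≤ t / 2 := min_le_right _ _
  let b : Pr →₀ ℝ := N.mapRange (fun a => max (a - δ) 0) (max_eq_right (by linarith))
  have hb : ∀ F, b F = max (s F - δ) 0 := fun F => rfl
  have hblow : ∀ D : Pr →₀ ℝ, 0 ≤ D → Y.cls D = x + t₀ • Y.A → ∀ F, b F ≤ D F := by
    intro D h0 h3 F
    rw [hb]
    refine max_le ?_ (h0 F)
    by_cases hF : F ∈ N.support
    · exact Low.mono h ((min_le_left _ _).trans (h2 F hF)) (hl F hF) D h0 h3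
    · have h4 := Finsupp.notMem_support_iff.1 hF
      rw [hN] at h4
      have := h0 F
      rw [Finsupp.coe_zero, Pi.zero_apply] at this
      linarith
  obtain ⟨D, h0, h3, h4⟩ := hup Γ (s Γ + δ) (by linarith) t₀ ht₀0
  have h5 := hblow D h0 h3
  set c := D Γ - b Γ with hc
  have hc0 : 0 ≤ c := by
    rw [hc]
    linarith [h5 Γ]
  have hc1 : c ≤ 2 * δ := by
    have h6 : s Γ - δ ≤ b Γ := by
      rw [hb]
      exact le_max_left _ _
    rw [hc]
    linarith
  have h6 : Y.Free Γ (x + t₀ • Y.A - Y.cls b - c • Y.cl Γ) := by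
    refine free_iff.2 ⟨D - b - Finsupp.single Γ c, ?_, ?_, ?_⟩
    · intro F
      rw [Finsupp.sub_apply, Finsupp.sub_apply, Finsupp.coe_zero, Pi.zero_apply]
      by_cases hF : F = Γ
      · rw [hF, Finsupp.single_eq_same, hc, sub_self]
      · rw [Finsupp.single_eq_of_ne hF, sub_zero, sub_nonneg]
        exact h5 F
    · rw [Finsupp.sub_apply, Finsupp.sub_apply, Finsupp.single_eq_same, hc, sub_self]
    · rw [map_sub, map_sub, cls_single, h3]
  have h7 : Y.Free Γ ((t - t₀) • Y.A + (c • Y.cl Γ - Y.cls (N - b))) := by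
    refine hball _ (by linarith) _ (fun i => ?_) Γ
    have h8 : Y.cls (N - b) = ∑ F ∈ N.support, (N - b) F • Y.cl F := by
      refine Finsupp.sum_of_support_subset _ (fun F hF => ?_) _ (fun F _ => zero_smul _ _)
      rw [Finsupp.mem_support_iff] at hF ⊢
      intro h9
      refine hF ?_
      rw [Finsupp.sub_apply, h9, hb]
      rw [hN] at h9
      rw [h9, zero_sub, zero_sub, max_eq_right (by linarith), neg_zero]
    have h9 : ∀ F, |(N - b) F| ≤ δ := fun F => by
      rw [Finsupp.sub_apply, hN, hb, abs_le]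
      have := hs0 F
      constructor
      · have : max (s F - δ) 0 ≤ s F := max_le (by linarith) (hs0 F)
        linarith
      · have : s F - δ ≤ max (s F - δ) 0 := le_max_left _ _
        linarith
    rw [h8, Pi.sub_apply, Pi.smul_apply, Finset.sum_apply, smul_eq_mul]
    have h10 : |∑ F ∈ N.support, ((N - b) F • Y.cl F) i| ≤ δ * ∑ F ∈ N.support, |Y.cl F i| := by
      rw [Finset.mul_sum]
      refine (Finset.abs_sum_le_sum_abs _ _).trans (Finset.sum_le_sum fun F _ => ?_)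
      rw [Pi.smul_apply, smul_eq_mul, abs_mul]
      exact mul_le_mul_of_nonneg_right (h9 F) (abs_nonneg _)
    have h11 : |c * Y.cl Γ i| ≤ 2 * δ * |Y.cl Γ i| := by
      rw [abs_mul, abs_of_nonneg hc0]
      exact mul_le_mul_of_nonneg_right hc1 (abs_nonneg _)
    refine (abs_sub _ _).trans ((add_le_add h11 h10).trans ?_)
    have h12 : 2 * δ * |Y.cl Γ i| + δ * ∑ F ∈ N.support, |Y.cl F i| ≤ δ * M := by
      have := mul_le_mul_of_nonneg_left (hM0 i) hδ0.le
      linarith
    have h13 : δ * M = t / 2 * ρ := by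
      rw [hδ]
      field_simp
    rw [h13] at h12
    refine h12.trans (mul_le_mul_of_nonneg_right (by linarith) hρ.le)
  have h8 := h6.add h7
  have h9 : x + t₀ • Y.A - Y.cls b - c • Y.cl Γ +
      ((t - t₀) • Y.A + (c • Y.cl Γ - Y.cls (N - b))) = x - Y.cls N + t • Y.A := by
    rw [map_sub]
    module
  rwa [h9] at h8

end Zariski

end Pre

/-- case of equality in the Hodge index theorem -/
theorem Form.index_eq (h : Y.Form f) (x : Vec r) (h1 : f Y.A x = 0) (h2 : f x x = 0) : x = 0 := by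
  refine h.nd x fun y => ?_
  have ha := h.A_A
  set a := f Y.A Y.A
  set y' := a • y - f Y.A y • Y.A with hy'
  have h3 : f Y.A y' = 0 := by
    rw [hy', h.sub', h.mul', h.mul']
    ring
  have h4 : f x y' = a * f x y := by
    rw [hy', h.sub', h.mul', h.mul', h.symm x Y.A, h1, mul_zero, sub_zero]
  set g := f x y' with hg
  set c := f y' y' with hc
  have h5 : ∀ s : ℝ, 2 * s * g + s ^ 2 * c ≤ 0 := fun s => by
    have h6 := h.index (x + s • y') (by rw [h.add', h.mul', h1, h3, mul_zero, add_zero])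
    rw [h.add, h.add', h.add', h.mul, h.mul, h.mul', h.mul', h2, h.symm y' x] at h6
    nlinarith
  have hc0 := abs_nonneg c
  have hb : (0 : ℝ) < 1 / (|c| + 1) := by positivity
  have h7 := h5 (1 / (|c| + 1) * g)
  have h8 : 1 / (|c| + 1) * c ≥ -1 := by
    have h9 : -|c| ≤ c := neg_abs_le c
    have h10 : 1 / (|c| + 1) * (|c| + 1) = 1 := by field_simp
    nlinarith
  have h9 : 0 ≤ 1 / (|c| + 1) * g ^ 2 := by positivity
  have h11 : 2 * (1 / (|c| + 1) * g) * g + (1 / (|c| + 1) * g) ^ 2 * c =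
      1 / (|c| + 1) * g ^ 2 * (2 + 1 / (|c| + 1) * c) := by ring
  rw [h11] at h7
  have h12 : 1 / (|c| + 1) * g ^ 2 ≤ 0 := by nlinarith
  have h13 : g ^ 2 = 0 := by
    have h14 : 1 / (|c| + 1) * g ^ 2 = 0 := le_antisymm h12 h9
    rcases mul_eq_zero.1 h14 with h15 | h15
    · exact absurd h15 hb.ne'
    · exact h15
  have h16 : g = 0 := by simpa using h13
  rw [h16] at h4
  rcases mul_eq_zero.1 h4.symm with h17 | h17
  · exact absurd h17 ha.ne'
  · exact h17

end Num

end Pool.Agent.H76.F4
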